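import Mathlib

namespace Pool.Agent.Lib.MP_d57286_nt

/-- The Lucas sequence `u_k(4,1)`. -/
def lucasU : ℕ → ℤ
  | 0 => 0
  | 1 => 1
  | k + 2 => 4 * lucasU (k + 1) - lucasU k

end Pool.Agent.Lib.MP_d57286_nt
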