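import Mathlib
import Pool.Agent.Lib.MP_d57286_nt.Defs

/-! Exact identities over a field of characteristic zero. -/

set_option linter.unusedSectionVars false

namespace Pool.Agent.Lib.MP_d57286_nt

open Finset

variable {K : Type*} [Field K] [CharZero K]

/-- Coefficients of `(1 - v)^a`. -/
def bc (a : K) : ℕ → K
  | 0 => 1
  | i + 1 => bc a i * (((i : K) - a) / ((i : K) + 1))

lemma bc_succ (a : K) (i : ℕ) : ((i : K) + 1) * bc a (i + 1) = ((i : K) - a) * bc a i := by
  have : (i : K) + 1 ≠ 0 := Nat.cast_add_one_ne_zero i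
  rw [bc]; field_simp

lemma bc_pred (a : K) (j : ℕ) : a * bc (a - 1) j = (a - j) * bc a j := by
  induction j with
  | zero => simp [bc]
  | succ j ih =>
    have : (j : K) + 1 ≠ 0 := Nat.cast_add_one_ne_zero j
    rw [bc, bc, ← mul_assoc, ih]; push_cast; field_simp; ring

lemma bc_add_one (a : K) (j : ℕ) : bc (a + 1) (j + 1) = bc a (j + 1) - bc a j := by
  induction j with
  | zero => simp [bc]; ring
  | succ j ih =>
    have h1 : (j : K) + 1 ≠ 0 := Nat.cast_add_one_ne_zero j
    have h2 : (j : K) + 1 + 1 ≠ 0 := by exact_mod_cast Nat.cast_add_one_ne_zero (R := K) (j + 1)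
    rw [bc, ih]; simp only [bc]; push_cast; field_simp; ring

lemma bc_nat (n j : ℕ) : bc (n : K) j = (-1) ^ j * (n.choose j : K) := by
  induction j with
  | zero => simp [bc]
  | succ j ih =>
    have h1 : (j : K) + 1 ≠ 0 := Nat.cast_add_one_ne_zero j
    rw [bc, ih]
    by_cases h : j ≤ n
    · have := Nat.choose_succ_right_eq n j
      have h2 : (n.choose (j + 1) : K) * ((j : K) + 1) = n.choose j * ((n : K) - j) := by
        rw [← Nat.cast_sub h]; exact_mod_cast this
      field_simp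
      linear_combination (-1 : K) ^ j * h2
    · rw [Nat.choose_eq_zero_of_lt (by omega), Nat.choose_eq_zero_of_lt (by omega)]; simp

lemma bc_half (j : ℕ) : bc (-1 / 2 : K) j = ((2 * j).choose j : K) / 4 ^ j := by
  induction j with
  | zero => simp [bc]
  | succ j ih =>
    have h1 : (j : K) + 1 ≠ 0 := Nat.cast_add_one_ne_zero j
    rw [bc, ih]
    have := Nat.succ_mul_centralBinom_succ j
    simp only [Nat.centralBinom] at this
    have h2 : ((j : K) + 1) * ((2 * (j + 1)).choose (j + 1) : K)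
        = 2 * (2 * j + 1) * ((2 * j).choose j : K) := by exact_mod_cast this
    field_simp
    linear_combination (-2 * (4 : K) ^ j) * h2

lemma bc_half_ne_zero (j : ℕ) : bc (-1 / 2 : K) j ≠ 0 := by
  rw [bc_half]
  have : (2 * j).choose j ≠ 0 := (Nat.choose_pos (by omega)).ne'
  exact div_ne_zero (Nat.cast_ne_zero.mpr this) (pow_ne_zero _ (by norm_num))

/-- `bc` extended by zero to negative indices. -/
def bz (a : K) (m : ℤ) : K := if 0 ≤ m then bc a m.toNat else 0

lemma bz_nat (a : K) (i : ℕ) : bz a (i : ℤ) = bc a i := by simp [bz]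

lemma bz_neg (a : K) {m : ℤ} (h : m < 0) : bz a m = 0 := by simp [bz, not_le.mpr h]

lemma bz_succ (a : K) (m : ℤ) : ((m : K) + 1) * bz a (m + 1) = ((m : K) - a) * bz a m := by
  rcases lt_trichotomy m (-1) with h | h | h
  · rw [bz_neg a (by omega), bz_neg a (by omega)]; simp
  · subst h; rw [bz_neg a (m := -1) (by omega)]; simp
  · obtain ⟨i, rfl⟩ := Int.eq_ofNat_of_zero_le (show 0 ≤ m by omega)
    have := bc_succ a i
    rw [bz_nat, show (i : ℤ) + 1 = ((i + 1 : ℕ) : ℤ) by push_cast; rfl, bz_nat]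
    simpa using this

lemma bz_add_one (a : K) (m : ℤ) : bz (a + 1) (m + 1) = bz a (m + 1) - bz a m := by
  rcases lt_trichotomy m (-1) with h | h | h
  · rw [bz_neg _ (by omega), bz_neg _ (by omega), bz_neg _ (by omega)]; simp
  · subst h; rw [bz_neg a (m := -1) (by omega)]; simp [bz, bc]
  · obtain ⟨i, rfl⟩ := Int.eq_ofNat_of_zero_le (show 0 ≤ m by omega)
    rw [bz_nat, show (i : ℤ) + 1 = ((i + 1 : ℕ) : ℤ) by push_cast; rfl, bz_nat, bz_nat]
    exact bc_add_one a i

/-- Coefficients of `(1 - v)^a (1 - v^3)^(-1/2)`. -/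
def kap (M : ℕ) (a : K) (i : ℤ) : K := ∑ j ∈ range M, bz a (i - 3 * j) * bc (-1 / 2 : K) j

lemma kap_add_one (M : ℕ) (a : K) (i : ℤ) :
    kap M (a + 1) (i + 1) = kap M a (i + 1) - kap M a i := by
  simp only [kap, ← sum_sub_distrib]
  refine sum_congr rfl fun j _ => ?_
  rw [show i + 1 - 3 * (j : ℤ) = (i - 3 * j) + 1 by ring, bz_add_one]; ring

lemma kap_ode (M : ℕ) (a : K) (i : ℤ) (h : i + 3 < 3 * M) :
    ((i : K) + 3) * kap M a (i + 3) - ((i : K) + 3 / 2) * kap M a i
      + a * (kap M a (i + 2) + kap M a (i + 1) + kap M a i) = 0 := by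
  let T : ℕ → K := fun j => 3 * (j : K) * bc (-1 / 2 : K) j * bz a (i + 3 - 3 * j)
  have key : ∑ j ∈ range M, (T j - T (j + 1)) = 0 := by
    rw [Finset.sum_range_sub']
    simp only [T]
    rw [bz_neg a (m := i + 3 - 3 * M) (by omega)]; simp
  rw [← key]
  simp only [kap, mul_sum, ← sum_add_distrib, ← sum_sub_distrib]
  refine sum_congr rfl fun j _ => ?_
  have e0 := bz_succ a (i - 3 * j)
  have e1 := bz_succ a (i - 3 * j + 1)
  have e2 := bz_succ a (i - 3 * j + 1 + 1)
  have e3 := bc_succ (-1 / 2 : K) j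
  simp only [T]
  rw [show i + 3 - 3 * (j : ℤ) = i - 3 * j + 1 + 1 + 1 by ring,
    show i + 2 - 3 * (j : ℤ) = i - 3 * j + 1 + 1 by ring,
    show i + 1 - 3 * (j : ℤ) = i - 3 * j + 1 by ring,
    show i + 3 - 3 * ((j + 1 : ℕ) : ℤ) = i - 3 * j by push_cast; ring]
  push_cast at e0 e1 e2 ⊢
  linear_combination (bc (-1 / 2 : K) j) * (e0 + e1 + e2) + 3 * bz a (i - 3 * j) * e3

/-- The scaled Legendre values. -/
def W (M : ℕ) (n : ℕ) : K := kap M ((n : K) + 1 / 2) n

lemma W_rec (M n : ℕ) (h : n + 2 < 3 * M) :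
    ((n : K) + 2) * W M (n + 2) + 3 / 2 * (2 * n + 3) * W M (n + 1) + 3 * (n + 1) * W M n = 0 := by
  have e := kap_ode M ((n : K) + 1 / 2) ((n : ℤ) - 1) (by omega)
  have e1 := kap_add_one M ((n : K) + 1 / 2) n
  have e2 := kap_add_one M ((n : K) + 1 / 2) (n + 1)
  have e3 := kap_add_one M ((n : K) + 1 / 2 + 1) (n + 1)
  simp only [W]
  push_cast at e ⊢
  rw [show (n : ℤ) - 1 + 3 = n + 1 + 1 by ring, show (n : ℤ) - 1 + 2 = n + 1 by ring,
    show (n : ℤ) - 1 + 1 = n by ring] at e
  rw [show (n : K) + 2 + 1 / 2 = n + 1 / 2 + 1 + 1 by ring, show (n : ℤ) + 2 = n + 1 + 1 by ring,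
    show (n : K) + 1 + 1 / 2 = n + 1 / 2 + 1 by ring, e3, e2, e1]
  linear_combination e

lemma kap_zero (M : ℕ) (a : K) : kap (M + 1) a 0 = 1 := by
  rw [kap, sum_range_succ']
  rw [sum_eq_zero fun j _ => by rw [bz_neg _ (by push_cast; omega), zero_mul]]
  simp [bz, bc]

lemma kap_one (M : ℕ) (a : K) : kap (M + 1) a 1 = -a := by
  rw [kap, sum_range_succ']
  rw [sum_eq_zero fun j _ => by rw [bz_neg _ (by push_cast; omega), zero_mul]]
  simp [bz, bc]

lemma W_pred (M n : ℕ) (h : n + 1 < 3 * M) :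
    3 * ((n : K) + 1) * W M n + ((n : K) + 1) * W M (n + 1)
      - ((n : K) + 3 / 2) * kap M ((n : K) + 3 / 2) n - kap M ((n : K) + 3 / 2) (n - 1) = 0 := by
  have e := kap_ode M ((n : K) + 1 / 2) ((n : ℤ) - 2) (by omega)
  have e1 := kap_add_one M ((n : K) + 1 / 2) n
  have e2 := kap_add_one M ((n : K) + 1 / 2) (n - 1)
  have e3 := kap_add_one M ((n : K) + 1 / 2) (n - 2)
  simp only [W]
  push_cast at e ⊢
  rw [show (n : ℤ) - 2 + 3 = n + 1 by ring, show (n : ℤ) - 2 + 2 = n by ring,
    show (n : ℤ) - 2 + 1 = n - 1 by ring] at e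
  rw [show (n : ℤ) - 1 + 1 = n by ring] at e2
  rw [show (n : ℤ) - 2 + 1 = n - 1 by ring] at e3
  rw [show (n : K) + 1 + 1 / 2 = n + 1 / 2 + 1 by ring, show (n : K) + 3 / 2 = n + 1 / 2 + 1 by ring,
    e1, e2, e3]
  linear_combination e

/-- Partial harmonic sums `1/a + 1/(a-1) + ... + 1/(a-j+1)`. -/
def hs (a : K) (j : ℕ) : K := ∑ t ∈ range j, 1 / (a - t)

lemma hs_pred (a : K) (j : ℕ) : hs (a - 1) j = hs a j - 1 / a + 1 / (a - j) := by
  induction j with
  | zero => simp [hs]
  | succ j ih =>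
    simp only [hs, sum_range_succ] at ih ⊢
    rw [ih]; push_cast; ring_nf

lemma log_sum (a : K) (M : ℕ) (h : ∀ t < M, a - t ≠ 0) :
    ∑ j ∈ range M, bc a j / ((M : K) - j) = -bc a M * hs a M := by
  induction M with
  | zero => simp [hs]
  | succ M ih =>
    have ih' := ih fun t ht => h t (by omega)
    have h1 : (M : K) + 1 ≠ 0 := Nat.cast_add_one_ne_zero M
    have h2 := h M (by omega)
    have key : ((M : K) + 1) * ∑ j ∈ range (M + 1), bc a j / (((M + 1 : ℕ) : K) - j)
        = ((M : K) - a) * ∑ j ∈ range M, bc a j / ((M : K) - j) + bc a M := by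
      have e1 : ∀ j ∈ range (M + 1), ((M : K) + 1) * (bc a j / (((M + 1 : ℕ) : K) - j))
          = bc a j + j * bc a j / (((M + 1 : ℕ) : K) - j) := by
        intro j hj
        have : ((M + 1 : ℕ) : K) - j ≠ 0 := by
          rw [sub_ne_zero, Ne, Nat.cast_inj]; have := mem_range.mp hj; omega
        push_cast at this ⊢
        field_simp; ring
      have e2 : ∀ j ∈ range M, ((j + 1 : ℕ) : K) * bc a (j + 1) / (((M + 1 : ℕ) : K) - (j + 1 : ℕ))
          = ((M : K) - a) * (bc a j / ((M : K) - j)) - bc a j := by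
        intro j hj
        have : (M : K) - j ≠ 0 := by
          rw [sub_ne_zero, Ne, Nat.cast_inj]; have := mem_range.mp hj; omega
        push_cast
        rw [bc_succ, show (M : K) + 1 - (j + 1) = M - j by ring]
        field_simp; ring
      rw [mul_sum, sum_congr rfl e1, sum_add_distrib, sum_range_succ, sum_range_succ',
        sum_congr rfl e2, sum_sub_distrib, mul_sum]
      simp; ring
    apply mul_left_cancel₀ h1
    rw [key, ih', hs, hs, sum_range_succ, bc]
    field_simp; ring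

lemma watson (N : ℕ) :
    ∑ j ∈ range (N + 1), bc (-1 / 2 : K) j / ((N : K) + 1 + j)
      = 1 / ((2 * N + 1) * bc (-1 / 2 : K) N) := by
  induction N with
  | zero => simp [bc]
  | succ N ih =>
    let G : ℕ → K := fun j => -2 * j * bc (-1 / 2 : K) j / ((N : K) + 1 + j)
    have hb := bc_half_ne_zero (K := K) N
    have h1 : (N : K) + 1 ≠ 0 := Nat.cast_add_one_ne_zero N
    have h2 : 2 * (N : K) + 1 ≠ 0 := by exact_mod_cast Nat.cast_add_one_ne_zero (R := K) (2 * N)
    have h3 : 2 * (N : K) + 3 ≠ 0 := by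
      have := Nat.cast_add_one_ne_zero (R := K) (2 * N + 2); push_cast at this
      intro h; apply this; linear_combination h
    have e1 : ∀ j ∈ range (N + 1), (2 * N + 3) * (bc (-1 / 2 : K) j / (((N + 1 : ℕ) : K) + 1 + j))
        = (2 * N + 2) * (bc (-1 / 2 : K) j / ((N : K) + 1 + j)) + (G (j + 1) - G j) := by
      intro j _
      have h4 : (N : K) + 1 + j ≠ 0 := by
        have := Nat.cast_add_one_ne_zero (R := K) (N + j); push_cast at this
        intro h; apply this; linear_combination h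
      have h5 : (N : K) + 1 + (j + 1) ≠ 0 := by
        have := Nat.cast_add_one_ne_zero (R := K) (N + j + 1); push_cast at this
        intro h; apply this; linear_combination h
      have h6 : (j : K) + 1 ≠ 0 := Nat.cast_add_one_ne_zero j
      simp only [G, bc]
      push_cast
      rw [show (N : K) + 1 + 1 + j = N + 1 + (j + 1) by ring]
      field_simp; ring
    apply mul_left_cancel₀ h3
    rw [sum_range_succ, mul_add, mul_sum, sum_congr rfl e1, sum_add_distrib, ← mul_sum, ih,
      Finset.sum_range_sub]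
    simp only [G, bc]
    push_cast
    rw [show (N : K) + 1 + 1 + (N + 1) = 2 * N + 3 by ring,
      show (N : K) + 1 + (N + 1) = 2 * (N + 1) by ring,
      show 2 * ((N : K) + 1) + 1 = 2 * N + 3 by ring,
      show (N : K) - -1 / 2 = (2 * N + 1) / 2 by ring]
    field_simp; ring

end Pool.Agent.Lib.MP_d57286_nt
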