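import Mathlib
import Pool.Agent.Lib.MP_d57286_nt.Exact

/-! Legendre-type sums weighted by the Lucas sequence. -/

set_option linter.unusedSectionVars false

namespace Pool.Agent.Lib.MP_d57286_nt

open Finset

variable {K : Type*} [Field K] [CharZero K]

/-- `lc n k = (-1)^k C(n,k) C(n+k,k)`. -/
def lc (n : K) : ℕ → K
  | 0 => 1
  | k + 1 => lc n k * ((((k : K) - n) * (k + n + 1)) / ((k : K) + 1) ^ 2)

lemma lc_nat_eq_zero (n k : ℕ) (h : n < k) : lc (n : K) k = 0 := by
  induction k with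
  | zero => omega
  | succ k ih =>
    rw [lc]
    rcases Nat.lt_succ_iff_lt_or_eq.mp h with h | h
    · rw [ih h, zero_mul]
    · subst h; simp

lemma lc_shift (n : K) (k : ℕ) : (n + 1 - k) * lc (n + 1) k = (n + 1 + k) * lc n k := by
  induction k with
  | zero => simp [lc]
  | succ k ih =>
    have h1 : (k : K) + 1 ≠ 0 := Nat.cast_add_one_ne_zero k
    simp only [lc]
    push_cast
    field_simp
    linear_combination ((k : K) - n) * (k + n + 2) * ih

lemma lc_up (n : K) (k : ℕ) :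
    lc (n + 1) (k + 1) = -((n + k + 2) * (n + k + 1)) / ((k : K) + 1) ^ 2 * lc n k := by
  have h1 : (k : K) + 1 ≠ 0 := Nat.cast_add_one_ne_zero k
  have := lc_shift n k
  rw [lc]; field_simp
  linear_combination (-(n + k + 2)) * this

lemma lc_down (n : K) (k : ℕ) :
    lc n (k + 1) = (((k : K) - n) * (n + 1 - k)) / ((k : K) + 1) ^ 2 * lc (n + 1) k := by
  have h1 : (k : K) + 1 ≠ 0 := Nat.cast_add_one_ne_zero k
  have := lc_shift n k
  rw [lc]; field_simp
  linear_combination (-((k : K) - n)) * this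

lemma lc_rec (n : K) (k : ℕ) :
    (n + 2) * lc (n + 1 + 1) (k + 1) - (2 * n + 3) * lc (n + 1) (k + 1) + (n + 1) * lc n (k + 1)
      = -2 * (2 * n + 3) * lc (n + 1) k := by
  have h1 : (k : K) + 1 ≠ 0 := Nat.cast_add_one_ne_zero k
  rw [lc_up (n + 1), lc_down n, lc]; field_simp; ring

lemma lc_deriv (n : K) (k : ℕ) :
    (n + 1 - 2 * (k + 1)) * lc (n + 1) (k + 1) - 2 * (n + 1 - k) * lc (n + 1) k
      = (n + 1) * lc n (k + 1) := by
  have h1 : (k : K) + 1 ≠ 0 := Nat.cast_add_one_ne_zero k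
  rw [lc_down n, lc]; field_simp; ring

/-- Legendre sum weighted by `z`. -/
def LL (M n : ℕ) (z : ℕ → K) : K := ∑ k ∈ range M, lc (n : K) k * z k / 4 ^ k

/-- Legendre sum weighted by `k z_k`. -/
def DD (M n : ℕ) (z : ℕ → K) : K := ∑ k ∈ range M, k * lc (n : K) k * z k / 4 ^ k

lemma LL_rec (M n : ℕ) (h : n + 1 < M) (z : ℕ → K) :
    ((n : K) + 2) * LL (M + 1) (n + 2) z - (2 * n + 3) * LL (M + 1) (n + 1) z
      + (n + 1) * LL (M + 1) n z = -(2 * n + 3) / 2 * LL (M + 1) (n + 1) fun k => z (k + 1) := by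
  have e : (LL (M + 1) (n + 1) fun k => z (k + 1))
      = ∑ k ∈ range M, lc ((n : K) + 1) k * z (k + 1) / 4 ^ k := by
    rw [LL, sum_range_succ, lc_nat_eq_zero _ _ h]; simp
  rw [e]
  simp only [LL, sum_range_succ', mul_add, mul_sum]
  push_cast
  have : ∀ k ∈ range M, -(2 * (n : K) + 3) / 2 * (lc ((n : K) + 1) k * z (k + 1) / 4 ^ k)
      = ((n : K) + 2) * (lc ((n : K) + 2) (k + 1) * z (k + 1) / 4 ^ (k + 1))
        - (2 * n + 3) * (lc ((n : K) + 1) (k + 1) * z (k + 1) / 4 ^ (k + 1))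
        + (n + 1) * (lc (n : K) (k + 1) * z (k + 1) / 4 ^ (k + 1)) := by
    intro k _
    have := lc_rec (n : K) k
    rw [show (n : K) + 1 + 1 = n + 2 by ring] at this
    rw [pow_succ]
    linear_combination (-(z (k + 1) / (4 ^ k * 4))) * this
  rw [sum_congr rfl this, sum_add_distrib, sum_sub_distrib]
  simp only [lc]
  ring

lemma DD_eq (M n : ℕ) (h : n + 1 < M) (z : ℕ → K) :
    -2 * (DD (M + 1) (n + 1) z - 1 / 4 * DD (M + 1) (n + 1) fun k => z (k + 1))
      = ((n : K) + 1) * (LL (M + 1) n z - LL (M + 1) (n + 1) z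
        + 1 / 2 * LL (M + 1) (n + 1) fun k => z (k + 1)) := by
  have e : (LL (M + 1) (n + 1) fun k => z (k + 1))
      = ∑ k ∈ range M, lc ((n : K) + 1) k * z (k + 1) / 4 ^ k := by
    rw [LL, sum_range_succ, lc_nat_eq_zero _ _ h]; simp
  have e' : (DD (M + 1) (n + 1) fun k => z (k + 1))
      = ∑ k ∈ range M, k * lc ((n : K) + 1) k * z (k + 1) / 4 ^ k := by
    rw [DD, sum_range_succ, lc_nat_eq_zero _ _ h]; simp
  rw [e, e']
  simp only [LL, DD, sum_range_succ']
  push_cast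
  have : ∑ k ∈ range M, (-2 * (((k : K) + 1) * lc ((n : K) + 1) (k + 1) * z (k + 1) / 4 ^ (k + 1)
      - 1 / 4 * (k * lc ((n : K) + 1) k * z (k + 1) / 4 ^ k))
      - ((n : K) + 1) * (lc (n : K) (k + 1) * z (k + 1) / 4 ^ (k + 1)
        - lc ((n : K) + 1) (k + 1) * z (k + 1) / 4 ^ (k + 1)
        + 1 / 2 * (lc ((n : K) + 1) k * z (k + 1) / 4 ^ k))) = 0 := by
    refine sum_eq_zero fun k _ => ?_
    have := lc_deriv (n : K) k
    rw [pow_succ]
    linear_combination (z (k + 1) / (4 ^ k * 4)) * this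
  simp only [sum_sub_distrib, sum_add_distrib, ← mul_sum] at this
  have l0 : ∀ a : K, lc a 0 = 1 := fun a => rfl
  simp only [l0]
  linear_combination this

/-- The sequence `u_k` in `K`. -/
def uu (k : ℕ) : K := (lucasU k : K)

/-- The companion sequence `u_{k+1} - 2 u_k`. -/
def ww (k : ℕ) : K := uu (k + 1) - 2 * uu k

lemma uu_succ : (fun k => (uu (k + 1) : K)) = fun k => 2 * uu k + ww k := by
  funext k; simp [ww]

lemma ww_succ : (fun k => (ww (k + 1) : K)) = fun k => 2 * ww k + 3 * uu k := by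
  funext k; simp only [ww, uu, lucasU]; push_cast; ring

lemma LL_lin (M n : ℕ) (a b : K) (z z' : ℕ → K) :
    LL M n (fun k => a * z k + b * z' k) = a * LL M n z + b * LL M n z' := by
  simp only [LL, mul_sum, ← sum_add_distrib]
  exact sum_congr rfl fun k _ => by ring

lemma DD_lin (M n : ℕ) (a b : K) (z z' : ℕ → K) :
    DD M n (fun k => a * z k + b * z' k) = a * DD M n z + b * DD M n z' := by
  simp only [DD, mul_sum, ← sum_add_distrib]
  exact sum_congr rfl fun k _ => by ring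

lemma LL_u_succ (M n : ℕ) :
    LL M n (fun k => (uu (k + 1) : K)) = 2 * LL M n uu + LL M n ww := by
  have := LL_lin M n (2 : K) 1 uu ww
  simp only [one_mul] at this
  rw [uu_succ, this]

lemma LL_w_succ (M n : ℕ) :
    LL M n (fun k => (ww (k + 1) : K)) = 2 * LL M n ww + 3 * LL M n uu := by
  rw [ww_succ, LL_lin]

lemma LL_eq_W (M m : ℕ) (h : 2 * m + 1 < M) :
    (LL (M + 1) (2 * m) uu : K) = 0 ∧ (LL (M + 1) (2 * m) ww : K) = W (M + 1) (2 * m) / 3 ^ m ∧
    (LL (M + 1) (2 * m + 1) ww : K) = 0 ∧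
    (LL (M + 1) (2 * m + 1) uu : K) = W (M + 1) (2 * m + 1) / 3 ^ (m + 1) := by
  induction m with
  | zero =>
    obtain ⟨M, rfl⟩ : ∃ M', M = M' + 1 := ⟨M - 1, by omega⟩
    have z0 : ∀ z : ℕ → K, LL (M + 1 + 1) 0 z = z 0 := by
      intro z
      rw [LL, sum_range_succ', sum_eq_zero fun k _ => by
        rw [lc_nat_eq_zero _ _ (Nat.succ_pos k)]; simp]
      simp [lc]
    have z1 : ∀ z : ℕ → K, LL (M + 1 + 1) 1 z = z 0 - z 1 / 2 := by
      intro z
      rw [LL, sum_range_succ', sum_range_succ', sum_eq_zero fun k _ => by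
        rw [lc_nat_eq_zero 1 _ (by omega)]; simp]
      simp [lc]; ring
    simp only [mul_zero, zero_add, z0, z1, W, Nat.cast_zero, Nat.cast_one, kap_zero, kap_one]
    simp [uu, ww, lucasU]
    norm_num
  | succ m ih =>
    obtain ⟨a0, b0, b1, a1⟩ := ih (by omega)
    have h3 : (3 : K) ^ m ≠ 0 := pow_ne_zero _ (by norm_num)
    have r1 := LL_rec (K := K) M (2 * m) (by omega) uu
    have r2 := LL_rec (K := K) M (2 * m) (by omega) ww
    have r3 := LL_rec (K := K) M (2 * m + 1) (by omega) uu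
    have r4 := LL_rec (K := K) M (2 * m + 1) (by omega) ww
    have w1 := W_rec (K := K) (M + 1) (2 * m) (by omega)
    have w2 := W_rec (K := K) (M + 1) (2 * m + 1) (by omega)
    rw [LL_u_succ] at r1 r3
    rw [LL_w_succ] at r2 r4
    have n1 : ((2 * m : ℕ) : K) + 2 ≠ 0 := by exact_mod_cast (by omega : 2 * m + 2 ≠ 0)
    have n2 : ((2 * m + 1 : ℕ) : K) + 2 ≠ 0 := by exact_mod_cast (by omega : 2 * m + 1 + 2 ≠ 0)
    rw [show 2 * (m + 1) = 2 * m + 2 by ring, show 2 * m + 2 + 1 = 2 * m + 1 + 2 by ring]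
    rw [show 2 * m + 1 + 1 = 2 * m + 2 by ring] at r3 r4 w2
    rw [a0, b1] at r1
    rw [b0, b1, a1] at r2
    have a2 : (LL (M + 1) (2 * m + 2) uu : K) = 0 := by
      apply mul_left_cancel₀ n1; linear_combination r1
    have b2 : (LL (M + 1) (2 * m + 2) ww : K) = W (M + 1) (2 * m + 2) / 3 ^ (m + 1) := by
      apply mul_left_cancel₀ n1
      rw [pow_succ] at r2 ⊢
      linear_combination r2 - w1 / (3 ^ m * 3)
    rw [a2, b2, a1] at r3
    rw [a2, b1] at r4
    refine ⟨a2, b2, ?_, ?_⟩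
    · apply mul_left_cancel₀ n2; linear_combination r4
    · apply mul_left_cancel₀ n2
      rw [pow_succ] at r3
      rw [pow_succ, pow_succ]
      linear_combination r3 - w2 / (3 ^ m * 3 * 3)

lemma DD_eq_W (M m : ℕ) (h : 2 * m + 1 < M) :
    (DD (M + 1) (2 * m + 1) uu : K)
      = -2 * (2 * m + 1) * (W (M + 1) (2 * m) + W (M + 1) (2 * m + 1) / 2) / 3 ^ m := by
  obtain ⟨a0, b0, b1, a1⟩ := LL_eq_W (K := K) M m h
  have d1 := DD_eq (K := K) M (2 * m) h uu
  have d2 := DD_eq (K := K) M (2 * m) h ww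
  have e := DD_lin (M + 1) (2 * m + 1) (2 : K) 1 uu ww
  simp only [one_mul] at e
  rw [LL_u_succ, uu_succ, e, a0, b1] at d1
  rw [LL_w_succ, ww_succ, DD_lin, b0, b1, a1, pow_succ] at d2
  push_cast at d1 d2
  linear_combination (-2) * d2 - 4 * d1

end Pool.Agent.Lib.MP_d57286_nt
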