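import Mathlib
import Pool.Agent.Lib.MP_d57286_nt.Legendre

/-! Divisibility by powers of `p` in the `p`-adic field. -/

set_option linter.unusedSectionVars false

namespace Pool.Agent.Lib.MP_d57286_nt

open Finset

variable {p : ℕ} [hp : Fact p.Prime]

/-- `x` is divisible by `p^k` in the `p`-adic integers. -/
def Dv (k : ℕ) (x : ℚ_[p]) : Prop := ‖x‖ ≤ (p : ℝ) ^ (-k : ℤ)

/-- `x` is a `p`-adic unit. -/
def Un (x : ℚ_[p]) : Prop := ‖x‖ = 1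

lemma p_pos : (0 : ℝ) < p := by exact_mod_cast hp.out.pos

lemma Dv.add {k : ℕ} {x y : ℚ_[p]} (hx : Dv k x) (hy : Dv k y) : Dv k (x + y) :=
  (Padic.nonarchimedean x y).trans (max_le hx hy)

lemma Dv.neg {k : ℕ} {x : ℚ_[p]} (hx : Dv k x) : Dv k (-x) := by
  unfold Dv at *; rwa [norm_neg]

lemma Dv.sub {k : ℕ} {x y : ℚ_[p]} (hx : Dv k x) (hy : Dv k y) : Dv k (x - y) := by
  rw [sub_eq_add_neg]; exact hx.add hy.neg

lemma dv_zero (k : ℕ) : Dv k (0 : ℚ_[p]) := by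
  unfold Dv; rw [norm_zero]; exact (zpow_pos p_pos _).le

lemma Dv.sum {k : ℕ} {ι : Type*} {s : Finset ι} {f : ι → ℚ_[p]} (h : ∀ i ∈ s, Dv k (f i)) :
    Dv k (∑ i ∈ s, f i) :=
  Finset.sum_induction f (Dv k) (fun _ _ => Dv.add) (dv_zero k) h

lemma Dv.mul {k l : ℕ} {x y : ℚ_[p]} (hx : Dv k x) (hy : Dv l y) : Dv (k + l) (x * y) := by
  unfold Dv at *
  rw [norm_mul]
  push_cast
  rw [neg_add, zpow_add₀ p_pos.ne']
  exact mul_le_mul hx hy (norm_nonneg _) (zpow_pos p_pos _).le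

lemma Dv.mul0 {x y : ℚ_[p]} (hx : Dv 0 x) (hy : Dv 0 y) : Dv 0 (x * y) := hx.mul hy

lemma Dv.mul_l {k : ℕ} {x y : ℚ_[p]} (hx : Dv 0 x) (hy : Dv k y) : Dv k (x * y) := by
  simpa using hx.mul hy

lemma Dv.mul_r {k : ℕ} {x y : ℚ_[p]} (hx : Dv k x) (hy : Dv 0 y) : Dv k (x * y) := hx.mul hy

lemma Dv.mul11 {x y : ℚ_[p]} (hx : Dv 1 x) (hy : Dv 1 y) : Dv 2 (x * y) := hx.mul hy

lemma Dv.mono {k l : ℕ} {x : ℚ_[p]} (h : l ≤ k) (hx : Dv k x) : Dv l x := by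
  refine le_trans hx (zpow_le_zpow_right₀ ?_ (by omega))
  exact_mod_cast hp.out.one_le

lemma Dv.of_eq {k : ℕ} {x y : ℚ_[p]} (hy : Dv k y) (h : x = y) : Dv k x := h ▸ hy

lemma dv_int (n : ℤ) : Dv 0 (n : ℚ_[p]) := by
  unfold Dv; simpa using Padic.norm_int_le_one n

lemma dv_nat (n : ℕ) : Dv 0 (n : ℚ_[p]) := by simpa using dv_int (p := p) n

lemma dv_one : Dv 0 (1 : ℚ_[p]) := by simpa using dv_nat (p := p) 1

lemma dv_ofNat (n : ℕ) [n.AtLeastTwo] : Dv 0 (ofNat(n) : ℚ_[p]) := dv_nat n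

lemma Dv.pow0 {x : ℚ_[p]} (hx : Dv 0 x) (n : ℕ) : Dv 0 (x ^ n) := by
  induction n with
  | zero => simpa using dv_one
  | succ n ih => rw [pow_succ]; exact ih.mul0 hx

lemma dv_p : Dv 1 (p : ℚ_[p]) := by
  unfold Dv; simp

lemma dv_p_mul {x : ℚ_[p]} (hx : Dv 0 x) : Dv 1 ((p : ℚ_[p]) * x) := dv_p.mul_r hx

lemma dv_p_mul' {x : ℚ_[p]} (hx : Dv 1 x) : Dv 2 ((p : ℚ_[p]) * x) := dv_p.mul11 hx

lemma dv_pp_mul {x : ℚ_[p]} (hx : Dv 0 x) : Dv 2 ((p : ℚ_[p]) ^ 2 * x) := by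
  rw [sq]; exact (dv_p.mul11 dv_p).mul_r hx

lemma p_ne_zero' : (p : ℚ_[p]) ≠ 0 := by exact_mod_cast hp.out.ne_zero

lemma Dv.ex {k : ℕ} {x : ℚ_[p]} (hx : Dv k x) : ∃ c, Dv 0 c ∧ x = (p : ℚ_[p]) ^ k * c := by
  refine ⟨x / (p : ℚ_[p]) ^ k, ?_, by rw [mul_div_cancel₀ _ (pow_ne_zero _ p_ne_zero')]⟩
  unfold Dv at *
  rw [norm_div, norm_pow, Padic.norm_p, div_le_iff₀ (by have := p_pos (p := p); positivity)]
  simpa using hx

lemma Dv.ex1 {x : ℚ_[p]} (hx : Dv 1 x) : ∃ c, Dv 0 c ∧ x = (p : ℚ_[p]) * c := by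
  simpa using hx.ex

lemma dv_int_iff (k : ℕ) (n : ℤ) : Dv k (n : ℚ_[p]) ↔ (p : ℤ) ^ k ∣ n :=
  Padic.norm_int_le_pow_iff_dvd n k

lemma Un.dv {x : ℚ_[p]} (h : Un x) : Dv 0 x := by unfold Un at h; unfold Dv; simp [h]

lemma Un.inv {x : ℚ_[p]} (h : Un x) : Un x⁻¹ := by unfold Un at *; simp [h]

lemma Un.mul {x y : ℚ_[p]} (hx : Un x) (hy : Un y) : Un (x * y) := by
  unfold Un at *; simp [hx, hy]

lemma Un.neg {x : ℚ_[p]} (hx : Un x) : Un (-x) := by unfold Un at *; simp [hx]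

lemma Un.pow {x : ℚ_[p]} (hx : Un x) (n : ℕ) : Un (x ^ n) := by unfold Un at *; simp [hx]

lemma Un.div {x y : ℚ_[p]} (hx : Un x) (hy : Un y) : Un (x / y) := by
  rw [div_eq_mul_inv]; exact hx.mul hy.inv

lemma Un.ne_zero {x : ℚ_[p]} (hx : Un x) : x ≠ 0 := by
  rintro rfl; simp [Un] at hx

lemma Dv.div {k : ℕ} {x y : ℚ_[p]} (hx : Dv k x) (hy : Un y) : Dv k (x / y) := by
  rw [div_eq_mul_inv]; exact hx.mul_r hy.inv.dv

lemma un_one : Un (1 : ℚ_[p]) := by simp [Un]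

lemma Dv.lt_one {x : ℚ_[p]} (hx : Dv 1 x) : ‖x‖ < 1 := by
  refine lt_of_le_of_lt hx ?_
  have : (1 : ℝ) < p := by exact_mod_cast hp.out.one_lt
  simpa using inv_lt_one_of_one_lt₀ this

lemma Un.not_dv {x : ℚ_[p]} (hx : Un x) : ¬ Dv 1 x := fun h => by
  have := h.lt_one; rw [hx] at this; exact lt_irrefl _ this

lemma Un.of_sub {x y : ℚ_[p]} (hx : Un x) (h : Dv 1 (y - x)) : Un y := by
  have h1 := h.lt_one
  unfold Un at *
  have := Padic.add_eq_max_of_ne (q := y - x) (r := x) (by rw [hx]; exact h1.ne)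
  rw [sub_add_cancel, hx] at this
  rw [this, max_eq_right h1.le]

lemma un_int {n : ℤ} (h : ¬ (p : ℤ) ∣ n) : Un (n : ℚ_[p]) := by
  unfold Un
  rw [Padic.norm_intCast_eq_one_iff]
  exact ((Nat.prime_iff_prime_int.mp hp.out).irreducible.coprime_iff_not_dvd.mpr h).symm

lemma un_nat {n : ℕ} (h0 : 0 < n) (h : n < p) : Un (n : ℚ_[p]) := by
  have := un_int (p := p) (n := n) (by
    rw [Int.natCast_dvd_natCast]; exact Nat.not_dvd_of_pos_of_lt h0 h)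
  simpa using this

lemma un_succ {n : ℕ} (h : n + 1 < p) : Un ((n : ℚ_[p]) + 1) := by
  simpa using un_nat (p := p) (Nat.succ_pos n) h

lemma un_sub {a b : ℕ} (h0 : b < a) (h : a < p) : Un ((a : ℚ_[p]) - (b : ℚ_[p])) := by
  rw [← Nat.cast_sub h0.le]; exact un_nat (by omega) (by omega)

lemma dv_of_mul {x y : ℚ_[p]} (hx : Dv 0 x) (hy : Dv 0 y) (h : Dv 2 (x * y)) (hu : Un (x - y)) :
    Dv 2 x ∨ Dv 2 y := by
  have hx' : ‖x‖ ≤ 1 := by simpa [Dv] using hx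
  have hy' : ‖y‖ ≤ 1 := by simpa [Dv] using hy
  have h1 : ‖x - y‖ ≤ max ‖x‖ ‖y‖ := by
    have := Padic.nonarchimedean x (-y)
    rwa [norm_neg, ← sub_eq_add_neg] at this
  rw [hu] at h1
  unfold Dv at *
  rw [norm_mul] at h
  rcases le_max_iff.mp h1 with h2 | h2
  · right; rwa [le_antisymm hx' h2, one_mul] at h
  · left; rwa [le_antisymm hy' h2, mul_one] at h

lemma dvd_num_of_dv {k : ℕ} {q : ℚ} (h : Dv k (q : ℚ_[p])) : (p : ℤ) ^ k ∣ q.num := by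
  rw [← dv_int_iff]
  have : (q.num : ℚ_[p]) = (q : ℚ_[p]) * (q.den : ℚ_[p]) := by
    exact_mod_cast (Rat.mul_den_eq_num q).symm
  rw [this]
  exact h.mul_r (dv_nat _)

/-- First order expansion of a power. -/
lemma dv_pow_add {u w : ℚ_[p]} (hu : Dv 0 u) (hw : Dv 1 w) (n : ℕ) :
    Dv 2 ((u + w) ^ (n + 1) - (u ^ (n + 1) + ((n : ℚ_[p]) + 1) * u ^ n * w)) := by
  induction n with
  | zero => simpa using dv_zero 2
  | succ n ih =>
    have h1 : Dv 0 (u + w) := hu.add (hw.mono (by norm_num))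
    have h2 : Dv 2 (((n : ℚ_[p]) + 1) * u ^ n * (w * w)) :=
      (((dv_nat n).add dv_one).mul0 (hu.pow0 n)).mul_l (hw.mul11 hw)
    refine ((ih.mul_r h1).add h2).of_eq ?_
    push_cast; ring

lemma dv_pow_sub {k : ℕ} {u v : ℚ_[p]} (hu : Dv 0 u) (hv : Dv 0 v) (h : Dv k (u - v)) (n : ℕ) :
    Dv k (u ^ n - v ^ n) := by
  induction n with
  | zero => simpa using dv_zero k
  | succ n ih =>
    refine ((ih.mul_r hu).add ((hv.pow0 n).mul_l h)).of_eq ?_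
    ring

lemma dv_pow_p {u v : ℚ_[p]} (hv : Dv 0 v) (h : Dv 1 (u - v)) : Dv 2 (u ^ p - v ^ p) := by
  obtain ⟨n, hn⟩ : ∃ n, p = n + 1 := ⟨p - 1, by have := hp.out.pos; omega⟩
  have h1 := dv_pow_add hv h n
  have h2 : Dv 2 ((p : ℚ_[p]) * (v ^ n * (u - v))) := dv_p_mul' ((hv.pow0 n).mul_l h)
  have h3 : (p : ℚ_[p]) = (n : ℚ_[p]) + 1 := by exact_mod_cast hn
  refine (h1.add h2).of_eq ?_
  rw [h3, ← hn]; ring

/-- First order expansion of a product. -/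
lemma dv_prod {ι : Type*} (s : Finset ι) (f : ι → ℚ_[p]) (h : ∀ i ∈ s, Dv 1 (f i)) :
    Dv 2 (∏ i ∈ s, (1 + f i) - (1 + ∑ i ∈ s, f i)) := by
  classical
  induction s using Finset.induction_on with
  | empty => simpa using dv_zero 2
  | insert a s ha ih =>
    have h1 := h a (mem_insert_self _ _)
    have h2 : ∀ i ∈ s, Dv 1 (f i) := fun i hi => h i (mem_insert_of_mem hi)
    rw [prod_insert ha, sum_insert ha]
    refine (((dv_one.add (h1.mono (by norm_num))).mul_l (ih h2)).add (h1.mul11 (Dv.sum h2))).of_eq ?_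
    ring

end Pool.Agent.Lib.MP_d57286_nt
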