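import Mathlib
import Pool.Agent.Lib.MP_d57286_nt.Dv

/-! Congruences modulo `p^2` for the hypergeometric pieces. -/

set_option linter.unusedSectionVars false

namespace Pool.Agent.Lib.MP_d57286_nt

open Finset

variable {p : ℕ} [hp : Fact p.Prime]

lemma bc_dv0 {a : ℚ_[p]} (ha : Dv 0 a) {j : ℕ} (hj : j < p) : Dv 0 (bc a j) := by
  induction j with
  | zero => exact dv_one
  | succ j ih => exact (ih (by omega)).mul0 (((dv_nat j).sub ha).div (un_succ hj))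

lemma un_two (h : 2 < p) : Un (2 : ℚ_[p]) := by simpa using un_nat (p := p) (n := 2) (by norm_num) h

lemma un_three (h : 3 < p) : Un (3 : ℚ_[p]) := by
  simpa using un_nat (p := p) (n := 3) (by norm_num) h

lemma dv_half (h : 2 < p) : Dv 0 (-1 / 2 : ℚ_[p]) := dv_one.neg.div (un_two h)

lemma lc_dv0 {a : ℚ_[p]} (ha : Dv 0 a) {j : ℕ} (hj : j < p) : Dv 0 (lc a j) := by
  induction j with
  | zero => exact dv_one
  | succ j ih =>
    exact (ih (by omega)).mul0 ((((dv_nat j).sub ha).mul0 (((dv_nat j).add ha).add dv_one)).div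
      ((un_succ hj).pow 2))

lemma lc_sq {n : ℕ} (hn : p = 2 * n + 1) (h2 : 2 < p) {k : ℕ} (hk : k < p) :
    Dv 2 (lc (n : ℚ_[p]) k - bc (-1 / 2 : ℚ_[p]) k ^ 2) := by
  have hP : (p : ℚ_[p]) = 2 * (n : ℚ_[p]) + 1 := by exact_mod_cast hn
  induction k with
  | zero => simpa [lc, bc] using dv_zero 2
  | succ k ih =>
    have u1 := un_succ hk
    have e1 : Dv 0 ((((k : ℚ_[p]) - -1 / 2) / ((k : ℚ_[p]) + 1)) ^ 2) :=
      (((dv_nat k).sub (dv_half h2)).div u1).pow0 2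
    have e2 : Dv 2 ((p : ℚ_[p]) ^ 2 * (lc (n : ℚ_[p]) k / (2 * ((k : ℚ_[p]) + 1)) ^ 2)) :=
      dv_pp_mul ((lc_dv0 (dv_nat n) (by omega)).div (((un_two h2).mul u1).pow 2))
    refine (((ih (by omega)).mul_r e1).sub e2).of_eq ?_
    have := u1.ne_zero
    simp only [lc, bc]
    rw [hP]; field_simp; ring

lemma bc_small {a : ℚ_[p]} (ha : Dv 1 a) {i : ℕ} (hi : i + 1 < p) :
    Dv 2 (bc a (i + 1) + a / ((i : ℚ_[p]) + 1)) := by
  induction i with
  | zero => simpa [bc] using dv_zero 2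
  | succ i ih =>
    have u1 := un_succ (p := p) (n := i) (by omega)
    have u2 := un_succ hi
    have e1 : Dv 0 ((((i + 1 : ℕ) : ℚ_[p]) - a) / (((i + 1 : ℕ) : ℚ_[p]) + 1)) :=
      ((dv_nat _).sub (ha.mono (by norm_num))).div u2
    have e2 := (ha.mul11 ha).div (u1.mul u2)
    refine (((ih (by omega)).mul_r e1).add e2).of_eq ?_
    have := u1.ne_zero
    have := u2.ne_zero
    rw [bc]
    push_cast at *
    field_simp; ring

lemma bc_small1 {a : ℚ_[p]} (ha : Dv 1 a) {i : ℕ} (hi : i + 1 < p) : Dv 1 (bc a (i + 1)) :=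
  (((bc_small ha hi).mono (by norm_num)).sub (ha.div (un_succ hi))).of_eq (by ring)

lemma hs_dv0 {n j : ℕ} (hn : n < p) (hj : j ≤ n) : Dv 0 (hs (n : ℚ_[p]) j) :=
  Dv.sum fun t ht => dv_one.div (un_sub (by have := mem_range.mp ht; omega) hn)

lemma bc_half_cong {n : ℕ} (hn : p = 2 * n + 1) (h2 : 2 < p) {j : ℕ} (hj : j ≤ n) :
    Dv 2 (bc (-1 / 2 : ℚ_[p]) j
      - bc (n : ℚ_[p]) j * (1 - (p : ℚ_[p]) / 2 * hs (n : ℚ_[p]) j)) := by
  have hP : (p : ℚ_[p]) = 2 * (n : ℚ_[p]) + 1 := by exact_mod_cast hn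
  induction j with
  | zero => simpa [bc, hs] using dv_zero 2
  | succ j ih =>
    have u1 := un_succ (p := p) (n := j) (by omega)
    have u2 := un_sub (p := p) (a := n) (b := j) (by omega) (by omega)
    have e1 : Dv 0 (((j : ℚ_[p]) - -1 / 2) / ((j : ℚ_[p]) + 1)) :=
      ((dv_nat j).sub (dv_half h2)).div u1
    have e2 : Dv 2 ((p : ℚ_[p]) ^ 2 * (bc (n : ℚ_[p]) j * hs (n : ℚ_[p]) j
        / (2 ^ 2 * ((j : ℚ_[p]) + 1)))) :=
      dv_pp_mul (((bc_dv0 (dv_nat n) (by omega)).mul0 (hs_dv0 (by omega) (by omega))).div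
        (((un_two h2).pow 2).mul u1))
    refine (((ih (by omega)).mul_r e1).sub e2).of_eq ?_
    have := u1.ne_zero
    have := u2.ne_zero
    simp only [bc, hs, sum_range_succ]
    rw [hP]; field_simp; ring

lemma bc_half_cong1 {n : ℕ} (hn : p = 2 * n + 1) (h2 : 2 < p) {j : ℕ} (hj : j ≤ n) :
    Dv 1 (bc (-1 / 2 : ℚ_[p]) j - bc (n : ℚ_[p]) j) := by
  have e := (bc_half_cong hn h2 hj).mono (l := 1) (by norm_num)
  have e2 : Dv 1 ((p : ℚ_[p]) * (bc (n : ℚ_[p]) j * hs (n : ℚ_[p]) j / 2)) :=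
    dv_p_mul (((bc_dv0 (dv_nat n) (by omega)).mul0 (hs_dv0 (by omega) hj)).div (un_two h2))
  exact (e.sub e2).of_eq (by ring)

lemma kap_trunc {K : Type*} [Field K] [CharZero K] (a : K) (i : ℤ) {L M : ℕ} (h : i < 3 * L)
    (hL : L ≤ M) : kap M a i = kap L a i := by
  unfold kap
  symm
  refine sum_subset (range_mono hL) fun j _ hj => ?_
  have : L ≤ j := by simpa using hj
  rw [bz_neg _ (by omega), zero_mul]

lemma W_cong {N M : ℕ} (hN : p = 6 * N + 1) (h0 : 0 < N) (hM : N < M) :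
    Dv 2 (W M (3 * N) - bc ((3 * N : ℕ) : ℚ_[p]) N
      * (1 - (p : ℚ_[p]) / 3 * hs ((3 * N : ℕ) : ℚ_[p]) N)) := by
  have hP : (p : ℚ_[p]) = 6 * (N : ℚ_[p]) + 1 := by exact_mod_cast hN
  have ha : ((3 * N : ℕ) : ℚ_[p]) + 1 / 2 = (p : ℚ_[p]) / 2 := by rw [hP]; push_cast; ring
  have u2 := un_two (p := p) (by omega)
  have u3 := un_three (p := p) (by omega)
  have hd : Dv 1 ((p : ℚ_[p]) / 2) := dv_p.div u2
  rw [W, ha, kap_trunc _ _ (L := N + 1) (by push_cast; omega) hM, kap, sum_range_succ]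
  have e0 : bz ((p : ℚ_[p]) / 2) (((3 * N : ℕ) : ℤ) - 3 * N) = 1 := by
    rw [show ((3 * N : ℕ) : ℤ) - 3 * N = ((0 : ℕ) : ℤ) by push_cast; ring, bz_nat]; rfl
  have e1 : Dv 2 (∑ j ∈ range N, (bz ((p : ℚ_[p]) / 2) (((3 * N : ℕ) : ℤ) - 3 * j)
      * bc (-1 / 2 : ℚ_[p]) j
      + (p : ℚ_[p]) / 6 * (bc ((3 * N : ℕ) : ℚ_[p]) j / ((N : ℚ_[p]) - (j : ℚ_[p]))))) := by
    refine Dv.sum fun j hj => ?_
    have hj := mem_range.mp hj
    obtain ⟨i, hi⟩ : ∃ i, N = j + i + 1 := ⟨N - j - 1, by omega⟩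
    rw [show ((3 * N : ℕ) : ℤ) - 3 * j = ((3 * i + 2 + 1 : ℕ) : ℤ) by rw [hi]; push_cast; ring,
      bz_nat]
    have f1 := (bc_small hd (i := 3 * i + 2) (by omega)).mul_r
      (bc_dv0 (dv_half (p := p) (by omega)) (j := j) (by omega))
    have u4 := un_succ (p := p) (n := 3 * i + 2) (by omega)
    have f2 := (hd.div u4).mul11 (bc_half_cong1 (p := p) (n := 3 * N) (by omega) (by omega)
      (j := j) (by omega))
    refine (f1.sub f2).of_eq ?_
    have h5 : (N : ℚ_[p]) - (j : ℚ_[p]) = (i : ℚ_[p]) + 1 := by rw [hi]; push_cast; ring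
    have h6 : ((3 * i + 2 : ℕ) : ℚ_[p]) + 1 = 3 * ((i : ℚ_[p]) + 1) := by push_cast; ring
    have h7 : (i : ℚ_[p]) + 1 ≠ 0 := Nat.cast_add_one_ne_zero i
    rw [h5, h6]; field_simp; ring
  rw [sum_add_distrib, ← mul_sum, log_sum _ _ fun t ht =>
    (un_sub (p := p) (a := 3 * N) (b := t) (by omega) (by omega)).ne_zero] at e1
  have e2 := bc_half_cong (p := p) (n := 3 * N) (by omega) (by omega) (j := N) (by omega)
  refine (e1.add e2).of_eq ?_
  rw [e0]; ring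

lemma kap_pred1 {N M : ℕ} (hN : p = 6 * N + 1) (h0 : 0 < N) (hM : N < M) :
    Dv 1 (kap M ((p : ℚ_[p]) / 2) (3 * N - 1)) := by
  have hd : Dv 1 ((p : ℚ_[p]) / 2) := dv_p.div (un_two (by omega))
  rw [kap_trunc _ _ (L := N) (by omega) hM.le, kap]
  refine Dv.sum fun j hj => ?_
  have hj := mem_range.mp hj
  obtain ⟨i, hi⟩ : ∃ i, N = j + i + 1 := ⟨N - j - 1, by omega⟩
  rw [show 3 * (N : ℤ) - 1 - 3 * j = ((3 * i + 1 + 1 : ℕ) : ℤ) by rw [hi]; push_cast; ring, bz_nat]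
  exact (bc_small1 hd (by omega)).mul_r (bc_dv0 (dv_half (by omega)) (by omega))

lemma un_beta {n : ℕ} (hn : p = 2 * n + 1) (h2 : 2 < p) {j : ℕ} (hj : j ≤ n) :
    Un (bc (-1 / 2 : ℚ_[p]) j) := by
  induction j with
  | zero => exact un_one
  | succ j ih =>
    refine (ih (by omega)).mul (Un.div ?_ (un_succ (by omega)))
    have := (un_succ (p := p) (n := 2 * j) (by omega)).div (un_two h2)
    have e : (j : ℚ_[p]) - -1 / 2 = (((2 * j : ℕ) : ℚ_[p]) + 1) / 2 := by push_cast; ring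
    rw [e]; exact this

lemma kap_pred2 {N M : ℕ} (hN : p = 6 * N + 1) (h0 : 0 < N) (hM : N < M) :
    Dv 2 (kap M ((p : ℚ_[p]) / 2) (3 * N - 2)
      - (p : ℚ_[p]) / 4 * (1 / bc (-1 / 2 : ℚ_[p]) N - bc (-1 / 2 : ℚ_[p]) N)) := by
  have hP : (p : ℚ_[p]) = 6 * (N : ℚ_[p]) + 1 := by exact_mod_cast hN
  have u2 := un_two (p := p) (by omega)
  have u3 := un_three (p := p) (by omega)
  have hd : Dv 1 ((p : ℚ_[p]) / 2) := dv_p.div u2
  rw [kap_trunc _ _ (L := N) (by omega) hM.le, kap]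
  have e1 : Dv 2 (∑ j ∈ range N, (bz ((p : ℚ_[p]) / 2) (3 * N - 2 - 3 * j)
      * bc (-1 / 2 : ℚ_[p]) j
      - (p : ℚ_[p]) / 6 * (bc (-1 / 2 : ℚ_[p]) j / ((N : ℚ_[p]) + 1 + (j : ℚ_[p]))))) := by
    refine Dv.sum fun j hj => ?_
    have hj := mem_range.mp hj
    obtain ⟨i, hi⟩ : ∃ i, N = j + i + 1 := ⟨N - j - 1, by omega⟩
    rw [show 3 * (N : ℤ) - 2 - 3 * j = ((3 * i + 1 : ℕ) : ℤ) by rw [hi]; push_cast; ring, bz_nat]
    have hb := bc_dv0 (dv_half (p := p) (by omega)) (j := j) (by omega)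
    have f1 := (bc_small hd (i := 3 * i) (by omega)).mul_r hb
    have u4 := un_succ (p := p) (n := 3 * i) (by omega)
    have u5 : Un ((N : ℚ_[p]) + 1 + (j : ℚ_[p])) := by
      have := un_nat (p := p) (n := N + 1 + j) (by omega) (by omega)
      push_cast at this; exact this
    have f2 := dv_pp_mul (hb.div (((u2.mul u3).mul u4).mul u5))
    refine (f1.sub f2).of_eq ?_
    have h4 := u4.ne_zero
    have h5 := u5.ne_zero
    have h6 : (p : ℚ_[p]) = 3 * ((N : ℚ_[p]) + 1 + (j : ℚ_[p])) + (((3 * i : ℕ) : ℚ_[p]) + 1) := by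
      rw [hP, hi]; push_cast; ring
    generalize ((3 * i : ℕ) : ℚ_[p]) + 1 = s at *
    generalize (N : ℚ_[p]) + 1 + (j : ℚ_[p]) = t at *
    field_simp
    rw [h6]; ring
  have e2 := watson (K := ℚ_[p]) N
  rw [sum_range_succ] at e2
  rw [sum_sub_distrib, ← mul_sum, eq_sub_of_add_eq e2] at e1
  have ub := un_beta (p := p) (n := 3 * N) (by omega) (by omega) (j := N) (by omega)
  have u6 : Un (2 * (N : ℚ_[p]) + 1) := by
    have := un_succ (p := p) (n := 2 * N) (by omega)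
    push_cast at this; exact this
  have e3 := dv_pp_mul (((dv_one.div ub).sub ub.dv).div (((u2.pow 2).mul u3).mul u6))
  refine (e1.sub e3).of_eq ?_
  have h1 := ub.ne_zero
  have h2 := u6.ne_zero
  rw [show (N : ℚ_[p]) + 1 + (N : ℚ_[p]) = 2 * (N : ℚ_[p]) + 1 by ring]
  field_simp
  rw [hP]; ring

lemma prod_three {K : Type*} [Field K] [CharZero K] (N : ℕ) :
    (3 : K) ^ N * ∏ t ∈ range (2 * N), (3 * (N : K) - 1 - 3 * t)
      = (-1) ^ N * ∏ t ∈ range (2 * N), (3 * (N : K) - t) := by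
  induction N with
  | zero => simp
  | succ N ih =>
    have h1 : (N : K) + 1 ≠ 0 := Nat.cast_add_one_ne_zero N
    have eA : ∏ t ∈ range (2 * (N + 1)), (3 * ((N + 1 : ℕ) : K) - 1 - 3 * t)
        = -((3 * N + 2) * (3 * N + 1)) * ∏ t ∈ range (2 * N), (3 * (N : K) - 1 - 3 * t) := by
      rw [show 2 * (N + 1) = 2 * N + 1 + 1 by ring, prod_range_succ, prod_range_succ']
      rw [prod_congr rfl (g := fun t : ℕ => 3 * (N : K) - 1 - 3 * t)
        fun t _ => by push_cast; ring]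
      push_cast; ring
    have eB : ∏ t ∈ range (2 * (N + 1)), (3 * ((N + 1 : ℕ) : K) - t)
        = 3 * ((3 * N + 2) * (3 * N + 1)) * ∏ t ∈ range (2 * N), (3 * (N : K) - t) := by
      apply mul_right_cancel₀ h1
      have e1 := prod_range_succ (fun t : ℕ => 3 * ((N + 1 : ℕ) : K) - t) (2 * (N + 1))
      have e2 : ∏ t ∈ range (2 * (N + 1) + 1), (3 * ((N + 1 : ℕ) : K) - t)
          = 3 * ((3 * N + 2) * (3 * N + 1)) * (∏ t ∈ range (2 * N), (3 * (N : K) - t))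
            * (N + 1) := by
        rw [show 2 * (N + 1) + 1 = 2 * N + 1 + 1 + 1 by ring, prod_range_succ', prod_range_succ',
          prod_range_succ']
        rw [prod_congr rfl (g := fun t : ℕ => 3 * (N : K) - t) fun t _ => by push_cast; ring]
        push_cast; ring
      rw [← e2, e1]; push_cast; ring
    rw [eA, eB, pow_succ, pow_succ]
    linear_combination (-3 * ((3 * (N : K) + 2) * (3 * N + 1))) * ih

lemma three_pow_cong {N : ℕ} (hN : p = 6 * N + 1) (h0 : 0 < N) :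
    Dv 2 ((3 : ℚ_[p]) ^ (3 * N) * (1 - (p : ℚ_[p]) / 3 * hs ((3 * N : ℕ) : ℚ_[p]) (2 * N))
      - (-1) ^ N) := by
  have hP : (p : ℚ_[p]) = 6 * (N : ℚ_[p]) + 1 := by exact_mod_cast hN
  have u3 := un_three (p := p) (by omega)
  have hu : ∀ t ∈ range (2 * N), Un (((3 * N : ℕ) : ℚ_[p]) - (t : ℚ_[p])) := fun t ht =>
    un_sub (by have := mem_range.mp ht; omega) (by omega)
  let f : ℕ → ℚ_[p] := fun t => -((p : ℚ_[p]) / 3 * (1 / (((3 * N : ℕ) : ℚ_[p]) - (t : ℚ_[p]))))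
  have e1 := dv_prod (range (2 * N)) f fun t ht =>
    ((dv_p.div u3).mul_r (dv_one.div (hu t ht))).neg
  have e2 : ∏ t ∈ range (2 * N), (3 * (N : ℚ_[p]) - 1 - 3 * (t : ℚ_[p]))
      = 3 ^ (2 * N) * (∏ t ∈ range (2 * N), (3 * (N : ℚ_[p]) - (t : ℚ_[p])))
        * ∏ t ∈ range (2 * N), (1 + f t) := by
    rw [show (3 : ℚ_[p]) ^ (2 * N) = ∏ _t ∈ range (2 * N), 3 by simp, ← prod_mul_distrib,
      ← prod_mul_distrib]
    refine prod_congr rfl fun t ht => ?_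
    have := (hu t ht).ne_zero
    simp only [f]
    push_cast at this ⊢
    field_simp
    rw [hP]; ring
  have e3 : ∏ t ∈ range (2 * N), (3 * (N : ℚ_[p]) - (t : ℚ_[p])) ≠ 0 :=
    prod_ne_zero_iff.mpr fun t ht => by have := (hu t ht).ne_zero; push_cast at this; exact this
  have e4 : (3 : ℚ_[p]) ^ (3 * N) * ∏ t ∈ range (2 * N), (1 + f t) = (-1) ^ N := by
    apply mul_right_cancel₀ e3
    rw [← prod_three N, e2]; ring
  refine ((u3.pow (3 * N)).dv.mul_l e1).neg.of_eq ?_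
  rw [← e4]
  simp only [f, hs, sum_neg_distrib, ← mul_sum]
  ring

end Pool.Agent.Lib.MP_d57286_nt
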