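import Mathlib
import Pool.Agent.Lib.MP_d57286_nt.Dv

/-! The Teichmueller character with values in the `p`-adic field. -/

set_option linter.unusedSectionVars false

namespace Pool.Agent.Lib.MP_d57286_nt

open Finset

variable {p : ℕ} [hp : Fact p.Prime]

lemma dv_coe (z : ℤ_[p]) : Dv 0 (z : ℚ_[p]) := by
  unfold Dv; simpa using z.2

lemma dv_one_of_lt {z : ℤ_[p]} (h : ‖z‖ < 1) : Dv 1 (z : ℚ_[p]) := by
  obtain ⟨c, rfl⟩ := (PadicInt.norm_lt_one_iff_dvd z).mp h
  push_cast
  exact dv_p_mul (dv_coe c)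

lemma exists_teich (a : ZMod p) :
    ∃ x : ℚ_[p], Dv 0 x ∧ x ^ p = x ∧ Dv 1 (x - ((a.val : ℕ) : ℚ_[p])) := by
  have hd : ‖(Polynomial.X ^ p - Polynomial.X : Polynomial ℤ).derivative.aeval
      ((a.val : ℕ) : ℤ_[p])‖ = 1 := by
    have e : (Polynomial.X ^ p - Polynomial.X : Polynomial ℤ).derivative.aeval
        ((a.val : ℕ) : ℤ_[p]) = (((p : ℤ) * (a.val : ℤ) ^ (p - 1) - 1 : ℤ) : ℤ_[p]) := by
      simp [Polynomial.derivative_X_pow]
    rw [e, PadicInt.norm_intCast_eq_one_iff]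
    exact ⟨-1, (a.val : ℤ) ^ (p - 1), by ring⟩
  have hn : ‖(Polynomial.X ^ p - Polynomial.X : Polynomial ℤ).aeval ((a.val : ℕ) : ℤ_[p])‖
      < ‖(Polynomial.X ^ p - Polynomial.X : Polynomial ℤ).derivative.aeval
        ((a.val : ℕ) : ℤ_[p])‖ ^ 2 := by
    rw [hd, one_pow]
    have e : (Polynomial.X ^ p - Polynomial.X : Polynomial ℤ).aeval
        ((a.val : ℕ) : ℤ_[p]) = (((a.val : ℤ) ^ p - a.val : ℤ) : ℤ_[p]) := by
      simp
    rw [e, PadicInt.norm_int_lt_one_iff_dvd, ← ZMod.intCast_zmod_eq_zero_iff_dvd]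
    push_cast
    rw [ZMod.pow_card, sub_self]
  obtain ⟨z, hz1, hz2, -⟩ := hensels_lemma hn
  rw [hd] at hz2
  refine ⟨z, dv_coe z, ?_, ?_⟩
  · have : z ^ p - z = 0 := by simpa using hz1
    have h2 : z ^ p = z := sub_eq_zero.mp this
    exact_mod_cast congrArg (fun w : ℤ_[p] => (w : ℚ_[p])) h2
  · have := dv_one_of_lt hz2
    rwa [PadicInt.coe_sub, PadicInt.coe_natCast] at this

/-- The Teichmueller representative. -/
noncomputable def teich (a : ZMod p) : ℚ_[p] := (exists_teich a).choose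

lemma teich_dv (a : ZMod p) : Dv 0 (teich a) := (exists_teich a).choose_spec.1

lemma teich_pow (a : ZMod p) : teich a ^ p = teich a := (exists_teich a).choose_spec.2.1

lemma teich_int (z : ℤ) : Dv 1 (teich (z : ZMod p) - (z : ℚ_[p])) := by
  have h1 : Dv 1 (teich (z : ZMod p) - (((z : ZMod p).val : ℕ) : ℚ_[p])) :=
    (exists_teich (z : ZMod p)).choose_spec.2.2
  have h2 : Dv 1 (((((z : ZMod p).val : ℤ) - z : ℤ)) : ℚ_[p]) := by
    rw [dv_int_iff, pow_one, ← ZMod.intCast_zmod_eq_zero_iff_dvd]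
    simp
  refine (h1.add h2).of_eq ?_
  push_cast; ring

lemma teich_unique {x y : ℚ_[p]} (hx : Dv 0 x) (hy : Dv 0 y) (h1 : x ^ p = x) (h2 : y ^ p = y)
    (h : Dv 1 (x - y)) : x = y := by
  have e := geom_sum₂_mul x y p
  rw [h1, h2] at e
  have e1 : Dv 1 (∑ i ∈ range p, (x ^ i * y ^ (p - 1 - i) - y ^ (p - 1))) := by
    refine Dv.sum fun i hi => ?_
    have hi := mem_range.mp hi
    refine ((dv_pow_sub hx hy h i).mul_r (hy.pow0 (p - 1 - i))).of_eq ?_
    rw [sub_mul, ← pow_add, show i + (p - 1 - i) = p - 1 by omega]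
  rw [sum_sub_distrib, sum_const, card_range, nsmul_eq_mul] at e1
  have e2 := e1.add (dv_p_mul (hy.pow0 (p - 1)))
  rw [sub_add_cancel] at e2
  have e3 : Un (1 - ∑ i ∈ range p, x ^ i * y ^ (p - 1 - i)) :=
    un_one.of_sub (e2.neg.of_eq (by ring))
  have e4 : (1 - ∑ i ∈ range p, x ^ i * y ^ (p - 1 - i)) * (x - y) = 0 := by
    rw [sub_mul, e]; ring
  exact sub_eq_zero.mp ((mul_eq_zero.mp e4).resolve_left e3.ne_zero)

lemma teich_zero : teich (0 : ZMod p) = 0 :=
  teich_unique (teich_dv _) (dv_zero 0) (teich_pow _) (zero_pow hp.out.ne_zero)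
    (by simpa using teich_int (p := p) 0)

lemma teich_one : teich (1 : ZMod p) = 1 :=
  teich_unique (teich_dv _) dv_one (teich_pow _) (one_pow _) (by simpa using teich_int (p := p) 1)

lemma teich_mul (a b : ZMod p) : teich (a * b) = teich a * teich b := by
  obtain ⟨a, rfl⟩ := ZMod.intCast_surjective a
  obtain ⟨b, rfl⟩ := ZMod.intCast_surjective b
  refine teich_unique (teich_dv _) ((teich_dv _).mul0 (teich_dv _)) (teich_pow _)
    (by rw [mul_pow, teich_pow, teich_pow]) ?_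
  have h1 := teich_int (p := p) (a * b)
  push_cast at h1
  refine ((h1.sub ((teich_int a).mul_r (teich_dv (b : ZMod p)))).sub
    ((dv_int a).mul_l (teich_int b))).of_eq ?_
  ring

lemma teich_one_sub (a : ZMod p) : Dv 1 (teich (1 - a) - (1 - teich a)) := by
  obtain ⟨a, rfl⟩ := ZMod.intCast_surjective a
  have h1 := teich_int (p := p) (1 - a)
  push_cast at h1
  exact (h1.add (teich_int a)).of_eq (by ring)

lemma teich_injective : Function.Injective (teich : ZMod p → ℚ_[p]) := by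
  intro a b h
  obtain ⟨a, rfl⟩ := ZMod.intCast_surjective a
  obtain ⟨b, rfl⟩ := ZMod.intCast_surjective b
  have h1 : Dv 1 ((a - b : ℤ) : ℚ_[p]) := by
    refine ((teich_int b).sub (teich_int a)).of_eq ?_
    rw [h]; push_cast; ring
  rw [dv_int_iff, pow_one, ← ZMod.intCast_zmod_eq_zero_iff_dvd] at h1
  push_cast at h1
  exact sub_eq_zero.mp h1

/-- The Teichmueller character. -/
noncomputable def om : MulChar (ZMod p) ℚ_[p] where
  toFun := teich
  map_one' := teich_one
  map_mul' := teich_mul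
  map_nonunit' a ha := by
    have : a = 0 := by simpa using ha
    rw [this, teich_zero]

lemma om_apply (a : ZMod p) : om a = teich a := rfl

lemma teich_pow' (a : ZMod p) (m : ℕ) : teich (a ^ m) = teich a ^ m := map_pow om a m

lemma teich_pow_pred {a : ZMod p} (ha : a ≠ 0) : teich a ^ (p - 1) = 1 := by
  rw [← teich_pow', ZMod.pow_card_sub_one_eq_one ha, teich_one]

lemma om_pow_ne_one {m : ℕ} (h : ¬ (p - 1) ∣ m) : (om : MulChar (ZMod p) ℚ_[p]) ^ m ≠ 1 := by
  intro h1
  obtain ⟨g, hg⟩ := IsCyclic.exists_ofOrder_eq_natCard (α := (ZMod p)ˣ)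
  apply h
  have h2 : ((om : MulChar (ZMod p) ℚ_[p]) ^ m) g = 1 := by rw [h1, MulChar.one_apply_coe]
  rw [MulChar.pow_apply_coe, om_apply, ← teich_pow', ← teich_one] at h2
  have h3 : g ^ m = 1 := Units.ext (by simpa using teich_injective h2)
  have := orderOf_dvd_of_pow_eq_one h3
  rwa [hg, Nat.card_eq_fintype_card, ZMod.card_units] at this

lemma sum_teich_pow {m : ℕ} (hm : m ≠ 0) :
    ∑ a : ZMod p, teich a ^ m = if (p - 1) ∣ m then (p : ℚ_[p]) - 1 else 0 := by
  split_ifs with h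
  · obtain ⟨c, rfl⟩ := h
    have : ∀ a : ZMod p, teich a ^ ((p - 1) * c) = 1 - if a = 0 then 1 else 0 := by
      intro a
      split_ifs with ha
      · rw [ha, teich_zero, zero_pow hm, sub_self]
      · rw [pow_mul, teich_pow_pred ha, one_pow, sub_zero]
    simp [this, ZMod.card]
  · have := MulChar.sum_eq_zero_of_ne_one (om_pow_ne_one (p := p) h)
    simpa only [MulChar.pow_apply' _ hm, om_apply] using this

end Pool.Agent.Lib.MP_d57286_nt
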