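import Mathlib
import Pool.Agent.Lib.MP_d57286_nt.Cong
import Pool.Agent.Lib.MP_d57286_nt.Teich

/-! The cubic-quadratic Jacobi sum modulo `p^2`. -/

set_option linter.unusedSectionVars false

namespace Pool.Agent.Lib.MP_d57286_nt

open Finset

variable {p : ℕ} [hp : Fact p.Prime]

lemma one_sub_pow_eq {K : Type*} [Field K] [CharZero K] (x : K) (n : ℕ) :
    (1 - x) ^ n = ∑ l ∈ range (n + 1), bc (n : K) l * x ^ l := by
  rw [show 1 - x = -x + 1 by ring, add_pow]
  refine sum_congr rfl fun l _ => ?_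
  rw [bc_nat, neg_pow]; ring

/-- The truncated logarithm. -/
noncomputable def lg (x : ℚ_[p]) : ℚ_[p] := ∑ i ∈ range (p - 1), x ^ (i + 1) / ((i : ℚ_[p]) + 1)

lemma lg_dv {x : ℚ_[p]} (hx : Dv 0 x) : Dv 0 (lg x) :=
  Dv.sum fun i hi => (hx.pow0 _).div (un_succ (by have := mem_range.mp hi; omega))

lemma teich_one_sub_cong (h2 : Odd p) (a : ZMod p) :
    Dv 2 (teich (1 - a) - (1 - teich a + -((p : ℚ_[p]) * lg (teich a)))) := by
  have e1 := dv_pow_p (dv_one.sub (teich_dv a)) (teich_one_sub a)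
  rw [teich_pow, one_sub_pow_eq, sum_range_succ, teich_pow] at e1
  have e2 : ∑ l ∈ range p, bc (p : ℚ_[p]) l * teich a ^ l
      = ∑ l ∈ range (p - 1), bc (p : ℚ_[p]) (l + 1) * teich a ^ (l + 1) + 1 := by
    conv_lhs => rw [show range p = range (p - 1 + 1) by rw [Nat.sub_add_cancel hp.out.one_le]]
    rw [sum_range_succ']; simp [bc]
  have e3 : bc (p : ℚ_[p]) p = -1 := by rw [bc_nat, h2.neg_one_pow]; simp
  have e4 : Dv 2 (∑ l ∈ range (p - 1), (bc (p : ℚ_[p]) (l + 1) + (p : ℚ_[p]) / ((l : ℚ_[p]) + 1))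
      * teich a ^ (l + 1)) := Dv.sum fun l hl =>
    (bc_small dv_p (by have := mem_range.mp hl; omega)).mul_r ((teich_dv a).pow0 _)
  rw [e2, e3] at e1
  refine (e1.add e4).of_eq ?_
  simp only [lg, add_mul, sum_add_distrib, mul_sum]
  rw [sum_congr rfl (g := fun i : ℕ => (p : ℚ_[p]) / ((i : ℚ_[p]) + 1) * teich a ^ (i + 1))
    fun i _ => by ring]
  ring

/-- The Jacobi sum. -/
noncomputable def JJ (p : ℕ) [Fact p.Prime] (s t : ℕ) : ℚ_[p] :=
  ∑ a : ZMod p, teich a ^ s * teich (1 - a) ^ t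

lemma sumA {N : ℕ} (hN : p = 6 * N + 1) (h0 : 0 < N) :
    ∑ a : ZMod p, teich a ^ (4 * N) * (1 - teich a) ^ (3 * N)
      = ((p : ℚ_[p]) - 1) * bc ((3 * N : ℕ) : ℚ_[p]) (2 * N) := by
  simp only [one_sub_pow_eq, mul_sum]
  rw [sum_comm]
  have : ∀ l ∈ range (3 * N + 1), ∑ a : ZMod p, teich a ^ (4 * N) *
      (bc ((3 * N : ℕ) : ℚ_[p]) l * teich a ^ l)
      = bc ((3 * N : ℕ) : ℚ_[p]) l * if (p - 1) ∣ 4 * N + l then (p : ℚ_[p]) - 1 else 0 := by
    intro l _
    rw [← sum_teich_pow (by omega), mul_sum]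
    exact sum_congr rfl fun a _ => by ring
  rw [sum_congr rfl this, sum_eq_single (2 * N)]
  · rw [if_pos ⟨1, by omega⟩]; ring
  · intro l hl hne
    have hl := mem_range.mp hl
    rw [if_neg, mul_zero]
    rintro ⟨c, hc⟩
    rw [show p - 1 = 6 * N by omega] at hc
    rcases c with _ | _ | c
    · omega
    · omega
    · have : 6 * N * (c + 1 + 1) = 6 * N * c + 12 * N := by ring
      omega
  · intro h; exact absurd (mem_range.mpr (by omega)) h

lemma sumB {N n : ℕ} (hN : p = 6 * N + 1) (h0 : 0 < N) (hn : n + 1 = 3 * N) :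
    ∑ a : ZMod p, teich a ^ (4 * N) * ((1 - teich a) ^ n * lg (teich a))
      = ((p : ℚ_[p]) - 1) * (∑ l ∈ range (2 * N), bc (n : ℚ_[p]) l / (((2 * N : ℕ) : ℚ_[p]) - (l : ℚ_[p]))
        + ∑ s ∈ range N, bc (n : ℚ_[p]) (n - s) / (((5 * N + 1 + s : ℕ) : ℚ_[p]))) := by
  simp only [one_sub_pow_eq, sum_mul, mul_sum]
  rw [sum_comm]
  have key : ∀ l i₀ : ℕ, l ≤ n → i₀ < 6 * N → (4 * N + l + i₀ + 1 = 6 * N ∨ 4 * N + l + i₀ + 1 = 12 * N) →
      ∑ a : ZMod p, teich a ^ (4 * N) * (bc (n : ℚ_[p]) l * teich a ^ l * lg (teich a))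
      = ((p : ℚ_[p]) - 1) * (bc (n : ℚ_[p]) l / ((i₀ : ℚ_[p]) + 1)) := by
    intro l i₀ hl hi₀ hor
    simp only [lg, mul_sum]
    rw [sum_comm]
    have : ∀ i ∈ range (p - 1), ∑ a : ZMod p, teich a ^ (4 * N) *
        (bc (n : ℚ_[p]) l * teich a ^ l * (teich a ^ (i + 1) / ((i : ℚ_[p]) + 1)))
        = bc (n : ℚ_[p]) l / ((i : ℚ_[p]) + 1) *
          if (p - 1) ∣ 4 * N + l + i + 1 then (p : ℚ_[p]) - 1 else 0 := by
      intro i _
      rw [← sum_teich_pow (by omega), mul_sum]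
      exact sum_congr rfl fun a _ => by ring
    rw [sum_congr rfl this, sum_eq_single i₀]
    · rw [if_pos]
      · ring
      · rcases hor with h | h
        · exact ⟨1, by omega⟩
        · exact ⟨2, by omega⟩
    · intro i hi hne
      have hi := mem_range.mp hi
      rw [if_neg, mul_zero]
      rintro ⟨c, hc⟩
      rw [show p - 1 = 6 * N by omega] at hc hi
      rcases c with _ | _ | _ | c
      · omega
      · omega
      · omega
      · have : 6 * N * (c + 1 + 1 + 1) = 6 * N * c + 18 * N := by ring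
        omega
    · intro h; exact absurd (mem_range.mpr (by omega)) h
  rw [show n + 1 = 2 * N + N by omega, sum_range_add, mul_add, mul_sum, mul_sum,
    ← sum_range_reflect _ N]
  congr 1
  · refine sum_congr rfl fun l hl => ?_
    have hl := mem_range.mp hl
    rw [key l (2 * N - l - 1) (by omega) (by omega) (by omega)]
    congr 2
    have : 2 * N = (2 * N - l - 1) + 1 + l := by omega
    conv_rhs => rw [this]
    push_cast; ring
  · refine sum_congr rfl fun s hs => ?_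
    have hs := mem_range.mp hs
    rw [show 2 * N + (N - 1 - s) = n - s by omega,
      key (n - s) (5 * N + s) (by omega) (by omega) (by omega)]
    congr 2
    push_cast; ring

lemma JJ_cong {N : ℕ} (hN : p = 6 * N + 1) (hodd : Odd N) :
    Dv 2 (JJ p (4 * N) (3 * N) - bc ((3 * N : ℕ) : ℚ_[p]) N * (1 - (p : ℚ_[p]) / 6 *
      (hs ((3 * N : ℕ) : ℚ_[p]) (2 * N) + 2 * hs ((3 * N : ℕ) : ℚ_[p]) N))) := by
  have h0 : 0 < N := hodd.pos
  obtain ⟨n, hn⟩ : ∃ n, n + 1 = 3 * N := ⟨3 * N - 1, by omega⟩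
  have hpo : Odd p := ⟨3 * N, by omega⟩
  have hP : (p : ℚ_[p]) = 6 * (N : ℚ_[p]) + 1 := by exact_mod_cast hN
  have hnc : (n : ℚ_[p]) = ((3 * N : ℕ) : ℚ_[p]) - 1 := by rw [← hn]; push_cast; ring
  have hne : Even n := by
    obtain ⟨m, hm⟩ := hodd; exact ⟨3 * m + 1, by omega⟩
  have e1 : Dv 2 (∑ a : ZMod p, (teich a ^ (4 * N) * teich (1 - a) ^ (3 * N)
      - (teich a ^ (4 * N) * (1 - teich a) ^ (3 * N)
        - ((n : ℚ_[p]) + 1) * (p : ℚ_[p]) *
          (teich a ^ (4 * N) * ((1 - teich a) ^ n * lg (teich a)))))) := by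
    refine Dv.sum fun a _ => ?_
    have hu := dv_one.sub (teich_dv a)
    have hw := (dv_p_mul (lg_dv (teich_dv a))).neg
    have f1 := dv_pow_sub (teich_dv _) (hu.add (hw.mono (by norm_num)))
      (teich_one_sub_cong hpo a) (n + 1)
    have f2 := dv_pow_add hu hw n
    refine (((teich_dv a).pow0 (4 * N)).mul_l (f1.add f2)).of_eq ?_
    rw [← hn]; ring
  rw [sum_sub_distrib, sum_sub_distrib, ← mul_sum, sumA hN h0, sumB hN h0 hn] at e1
  have hu : ∀ t, t < n → Un ((n : ℚ_[p]) - (t : ℚ_[p])) := fun t ht => un_sub ht (by omega)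
  rw [log_sum _ _ fun t ht => (hu t (by omega)).ne_zero] at e1
  have e2 : Dv 1 (∑ s ∈ range N, (bc (n : ℚ_[p]) (n - s) / ((5 * N + 1 + s : ℕ) : ℚ_[p])
      + bc (n : ℚ_[p]) s / ((N : ℚ_[p]) - (s : ℚ_[p])))) := by
    refine Dv.sum fun s hs => ?_
    have hs := mem_range.mp hs
    have u1 := un_nat (p := p) (n := 5 * N + 1 + s) (by omega) (by omega)
    have u2 := un_sub (p := p) hs (by omega)
    have f1 : bc (n : ℚ_[p]) (n - s) = bc (n : ℚ_[p]) s := by
      rw [bc_nat, bc_nat, Nat.choose_symm (by omega)]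
      congr 1
      have : (-1 : ℚ_[p]) ^ (n - s) * (-1) ^ s = 1 := by
        rw [← pow_add, Nat.sub_add_cancel (by omega), hne.neg_one_pow]
      rcases neg_one_pow_eq_or ℚ_[p] s with h | h <;> rw [h] at this ⊢
      · linear_combination this
      · linear_combination -this
    have f2 := dv_p_mul ((bc_dv0 (dv_nat n) (j := s) (by omega)).div (u1.mul u2))
    refine f2.of_eq ?_
    have := u1.ne_zero
    have := u2.ne_zero
    rw [f1]; field_simp
    rw [hP]; push_cast; ring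
  rw [sum_add_distrib, log_sum _ _ fun t ht => (hu t (by omega)).ne_zero] at e2
  -- closed forms
  set a : ℚ_[p] := ((3 * N : ℕ) : ℚ_[p]) with ha
  have ha' : a = 3 * (N : ℚ_[p]) := by rw [ha]; push_cast; ring
  have uN := un_nat (p := p) h0 (by omega)
  have u2 := un_two (p := p) (by omega)
  have u3 := un_three (p := p) (by omega)
  have hN0 := uN.ne_zero
  have c1 : bc a (2 * N) = -bc a N := by
    rw [ha, bc_nat, bc_nat, hodd.neg_one_pow, pow_mul,
      ← Nat.choose_symm (show N ≤ 3 * N by omega), show 3 * N - N = 2 * N by omega]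
    simp
  have c2 : bc (a - 1) (2 * N) = -bc a N / 3 := by
    have := bc_pred a (2 * N)
    rw [c1] at this
    push_cast at this
    apply mul_left_cancel₀ hN0
    rw [ha'] at this ⊢
    linear_combination this / 3
  have c3 : bc (a - 1) N = 2 * bc a N / 3 := by
    have := bc_pred a N
    apply mul_left_cancel₀ hN0
    rw [ha'] at this ⊢
    linear_combination this / 3
  have c4 : hs (a - 1) (2 * N) = hs a (2 * N) + 2 / (3 * (N : ℚ_[p])) := by
    rw [hs_pred, ha']; push_cast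
    rw [show 3 * (N : ℚ_[p]) - 2 * (N : ℚ_[p]) = N by ring]; field_simp; ring
  have c5 : hs (a - 1) N = hs a N + 1 / (6 * (N : ℚ_[p])) := by
    rw [hs_pred, ha']
    rw [show 3 * (N : ℚ_[p]) - (N : ℚ_[p]) = 2 * N by ring]; field_simp; ring
  rw [hnc] at e1 e2
  rw [c1, c2, c4] at e1
  rw [c3, c5] at e2
  have hb : Dv 0 (bc a N) := bc_dv0 (dv_nat _) (by omega)
  have hh1 : Dv 0 (hs a (2 * N)) := hs_dv0 (by omega) (by omega)
  have hh2 : Dv 0 (hs a N) := hs_dv0 (by omega) (by omega)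
  have hd : Dv 0 a := dv_nat _
  have hpd : Dv 0 (p : ℚ_[p]) := dv_nat _
  have e3 := dv_p_mul' ((hd.mul0 (hpd.sub dv_one)).mul_l e2)
  have e4 := dv_pp_mul (hb.mul0 (((((dv_nat N).sub (dv_one.div (u2.mul u3))).mul0
    (hh1.add (u2.dv.mul0 hh2)))).add dv_one))
  refine ((e1.sub e3).sub e4).of_eq ?_
  simp only [JJ]
  generalize (∑ s ∈ range N, bc (a - 1) (n - s) / ((5 * N + 1 + s : ℕ) : ℚ_[p])) = z
  rw [ha', hP]
  field_simp
  ring

end Pool.Agent.Lib.MP_d57286_nt
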