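import Mathlib

/-! Uniqueness and sign of the representation `p = x^2 + 3 y^2`. -/

namespace Pool.Agent.Lib.MP_d57286_nt

open NumberTheorySymbols

lemma rep_unique {p : ℕ} (hp : p.Prime) {a b x y : ℤ} (h1 : a ^ 2 + 3 * b ^ 2 = p)
    (h2 : x ^ 2 + 3 * y ^ 2 = p) : b = y ∨ b = -y := by
  have hpi := Nat.prime_iff_prime_int.mp hp
  have hp0 : (0 : ℤ) < p := by exact_mod_cast hp.pos
  have key : ∀ b : ℤ, a ^ 2 + 3 * b ^ 2 = p → (p : ℤ) ∣ a * y - b * x → a * y - b * x = 0 := by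
    intro b h1 hd
    obtain ⟨c, hc⟩ := hd
    have e : (a * x + 3 * b * y) ^ 2 + 3 * (a * y - b * x) ^ 2 = p * p := by
      linear_combination (x ^ 2 + 3 * y ^ 2) * h1 + (p : ℤ) * h2
    rw [hc] at e ⊢
    by_contra hne
    have hc0 : c ≠ 0 := by rintro rfl; simp at hne
    have : 1 ≤ c ^ 2 := by have := sq_pos_of_ne_zero hc0; omega
    nlinarith [sq_nonneg (a * x + 3 * b * y), mul_pos hp0 hp0]
  have e : (a * y - b * x) * (a * y + b * x) = p * (y ^ 2 - b ^ 2) := by
    linear_combination y ^ 2 * h1 - b ^ 2 * h2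
  have hd : (p : ℤ) ∣ (a * y - b * x) * (a * y + b * x) := ⟨_, e⟩
  have hz : (p : ℤ) * (y ^ 2 - b ^ 2) = 0 := by
    rw [← e]
    rcases hpi.dvd_or_dvd hd with h | h
    · rw [key b h1 h, zero_mul]
    · have := key (-b) (by linear_combination h1) (by simpa using h)
      have h4 : a * y + b * x = 0 := by linear_combination this
      rw [h4, mul_zero]
  have h5 : y ^ 2 - b ^ 2 = 0 := (mul_eq_zero.mp hz).resolve_left hp0.ne'
  exact sq_eq_sq_iff_eq_or_eq_neg.mp (by linarith)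

/-- Reciprocity for an odd integer and a modulus that is `3 mod 4`. -/
lemma jac_recip {q : ℕ} (hq : q % 4 = 3) {c : ℤ} (hc : Odd c) :
    J(c | q) = (if c % 4 = 1 then 1 else -1) * J(q | c.natAbs) := by
  have hqo : Odd q := Nat.odd_iff.mpr (by omega)
  have hco : Odd c.natAbs := Int.natAbs_odd.mpr hc
  have hm : J(-1 | q) = -1 := by rw [jacobiSym.at_neg_one hqo, ZMod.χ₄_nat_three_mod_four hq]
  have hc2 := Int.odd_iff.mp hc
  have h1 : c.natAbs % 4 = 1 → J(c.natAbs | q) = J(q | c.natAbs) := fun h =>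
    jacobiSym.quadratic_reciprocity_one_mod_four h hqo
  have h3 : c.natAbs % 4 = 3 → J(c.natAbs | q) = -J(q | c.natAbs) := fun h =>
    jacobiSym.quadratic_reciprocity_three_mod_four h hq
  rcases Int.natAbs_eq c with h | h
  · split_ifs with h4
    · rw [one_mul, ← h1 (by omega), ← h]
    · rw [neg_one_mul, ← h3 (by omega), ← h]
  · have e : J(c | q) = -J(c.natAbs | q) := by
      conv_lhs => rw [h, neg_eq_neg_one_mul, jacobiSym.mul_left, hm]
      ring
    split_ifs with h4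
    · rw [e, h3 (by omega)]; ring
    · rw [e, h1 (by omega)]; ring

lemma jac_of_sq {u v w : ℤ} {c : ℕ} (h : (c : ℤ) ∣ u - v * w ^ 2) (hu : u.gcd c = 1) :
    J(u | c) = J(v | c) := by
  have e : J(u | c) = J(v * w ^ 2 | c) :=
    jacobiSym.mod_left' ((Int.emod_emod_of_dvd _ (dvd_refl _)).symm.trans
      (by rw [Int.emod_emod_of_dvd _ (dvd_refl _)]; exact (Int.modEq_iff_dvd.mpr h).symm))
  rw [jacobiSym.mul_left, jacobiSym.pow_left] at e
  rcases jacobiSym.trichotomy w c with h0 | h0 | h0 <;> rw [h0] at e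
  · rcases jacobiSym.eq_one_or_neg_one hu with h1 | h1 <;> rw [h1] at e <;> simp at e
  · simpa using e
  · simpa using e

theorem sign_eq {p m : ℕ} (hp : p.Prime) (hm : p = 12 * m + 7) {a b x y : ℤ}
    (h1 : a ^ 2 + 3 * b ^ 2 = p) (ha : a % 3 = 2) (h2 : x ^ 2 + 3 * y ^ 2 = p) (hy : y % 4 = 1)
    (hr : (p : ℤ) ∣ a - b * 3 ^ (3 * m + 2)) (hr2 : (p : ℤ) ∣ (3 ^ (3 * m + 2)) ^ 2 + 3) :
    b = y := by
  rcases rep_unique hp h1 h2 with h | h
  · exact h
  exfalso
  have hpi := Nat.prime_iff_prime_int.mp hp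
  have hp4 : p % 4 = 3 := by omega
  have hpo : Odd p := Nat.odd_iff.mpr (by omega)
  have hp0 : (0 : ℤ) < p := by exact_mod_cast hp.pos
  have cop : ∀ c : ℤ, ¬ (p : ℤ) ∣ c → (p : ℤ).gcd c.natAbs = 1 := by
    intro c hc
    have := Int.isCoprime_iff_gcd_eq_one.mp (hpi.irreducible.coprime_iff_not_dvd.mpr hc)
    rw [Int.gcd_def] at this ⊢
    rwa [Int.natAbs_natCast c.natAbs]
  have hyp : ¬ (p : ℤ) ∣ y := by
    intro hd
    have := Int.le_of_dvd (abs_pos.mpr (by omega)) ((dvd_abs _ _).mpr hd)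
    nlinarith [sq_nonneg x, sq_abs y]
  have hyo : Odd y := Int.odd_iff.mpr (by omega)
  have jy : J(y | p) = 1 := by
    rw [jac_recip hp4 hyo, if_pos hy, one_mul,
      jac_of_sq (v := 1) (w := x) (Int.natAbs_dvd.mpr ⟨3 * y, by linear_combination -h2⟩)
        (cop y hyp), jacobiSym.one_left]
  have hm1 : J(-1 | p) = -1 := by rw [jacobiSym.at_neg_one hpo, ZMod.χ₄_nat_three_mod_four hp4]
  have j3 : J(3 | p) = -1 := by
    have := jac_recip hp4 (c := 3) (by decide)
    rw [this]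
    have e : J((p : ℤ) | 3) = J(1 | 3) := jacobiSym.mod_left' (by omega)
    simp only [Int.reduceMod, OfNat.ofNat_ne_one, if_false]
    change -1 * J((p : ℤ) | 3) = -1
    rw [e, jacobiSym.one_left]; ring
  have j2 : J(2 | p) = (-1) ^ m := by
    rw [jacobiSym.at_two hpo, ZMod.χ₈_nat_eq_if_mod_eight]
    rcases Nat.even_or_odd m with he | he
    · rw [he.neg_one_pow]; obtain ⟨k, hk⟩ := he
      rw [if_neg (by omega), if_pos (by omega)]
    · rw [he.neg_one_pow]; obtain ⟨k, hk⟩ := he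
      rw [if_neg (by omega), if_neg (by omega)]
  set r : ℤ := 3 ^ (3 * m + 2) with hrd
  have jr : J(r | p) = (-1) ^ m := by
    rw [hrd, jacobiSym.pow_left, j3, pow_add, pow_mul]; norm_num
  have hae : a % 2 = 0 := by
    rcases Int.emod_two_eq_zero_or_one a with h0 | h0
    · exact h0
    · exfalso
      obtain ⟨s, hs⟩ : ∃ s, a = 2 * s + 1 := ⟨a / 2, by omega⟩
      obtain ⟨t, ht⟩ : ∃ t, b = 2 * t + 1 := ⟨b / 2, by omega⟩
      have : (p : ℤ) = 4 * (s ^ 2 + s + 3 * t ^ 2 + 3 * t + 1) := by rw [← h1, hs, ht]; ring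
      omega
  have hco : Odd (a + 3 * b) := Int.odd_iff.mpr (by omega)
  have hcp : ¬ (p : ℤ) ∣ a + 3 * b := by
    intro hd
    have e : (p : ℤ) ∣ 12 * y ^ 2 := by
      have : 12 * y ^ 2 = p - (a + 3 * b) * (a - 3 * b) := by rw [← h1, h]; ring
      rw [this]; exact dvd_sub (dvd_refl _) (hd.mul_right _)
    rcases hpi.dvd_or_dvd e with h4 | h4
    · have h5 : p ∣ 12 := by exact_mod_cast h4
      have := Nat.le_of_dvd (by norm_num) h5
      have : p = 7 := by omega
      subst this; norm_num at h5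
    · exact hyp (hpi.dvd_of_dvd_pow h4)
  have jc : J(a + 3 * b | p) = -1 := by
    have e1 : J((p : ℤ) | (a + 3 * b).natAbs) = J(3 | (a + 3 * b).natAbs) :=
      jac_of_sq (w := 2 * b) (Int.natAbs_dvd.mpr ⟨a - 3 * b, by linear_combination -h1⟩)
        (cop _ hcp)
    have e2 := jac_recip (q := 3) (by norm_num) hco
    have e3 : J(a + 3 * b | 3) = J(2 | 3) := jacobiSym.mod_left' (by push_cast; omega)
    have e4 : J(2 | 3) = -1 := by norm_num
    rw [jac_recip hp4 hco, e1]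
    exact e2.symm.trans (e3.trans e4)
  have e5 : J(2 * (a + 3 * b) | p) = J(y * r | p) := by
    apply jac_of_sq (w := 1 + r)
    · have : 2 * (a + 3 * b) - y * r * (1 + r) ^ 2
          = 2 * (a - b * r) + (r ^ 2 + 3) * (b * (r + 2)) := by rw [h]; ring
      rw [this]; exact dvd_add (hr.mul_left _) (hr2.mul_right _)
    · rw [Int.gcd_comm, ← Int.isCoprime_iff_gcd_eq_one]
      apply hpi.irreducible.coprime_iff_not_dvd.mpr
      intro hd
      rcases hpi.dvd_or_dvd hd with h4 | h4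
      · have := Int.le_of_dvd (by norm_num) h4; omega
      · exact hcp h4
  rw [jacobiSym.mul_left, jacobiSym.mul_left, j2, jc, jy, jr] at e5
  rcases neg_one_pow_eq_or ℤ m with h6 | h6 <;> rw [h6] at e5 <;> norm_num at e5

end Pool.Agent.Lib.MP_d57286_nt
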