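import Mathlib
import Pool.Agent.Lib.MP_d57286_nt.Jacobi

/-! The Jacobi sum is `a + b √-3` with `a^2 + 3 b^2 = p`. -/

set_option linter.unusedSectionVars false

namespace Pool.Agent.Lib.MP_d57286_nt

open Finset

variable {p : ℕ} [hp : Fact p.Prime]

lemma not_dvd_aux {N k : ℕ} (hN : p = 6 * N + 1) (h0 : 0 < N) (hk : ¬ 6 ∣ k) :
    ¬ (p - 1) ∣ k * N := by
  rw [show p - 1 = 6 * N by omega]
  intro h
  exact hk (Nat.dvd_of_mul_dvd_mul_right h0 h)

theorem jac_struct {N : ℕ} (hN : p = 6 * N + 1) (h0 : 0 < N) :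
    ∃ (a b : ℤ) (ρ : ℚ_[p]), Dv 0 ρ ∧ ρ ^ 2 = -3 ∧ a ^ 2 + 3 * b ^ 2 = p ∧ a % 3 = 2 ∧
      JJ p (4 * N) (3 * N) = (a : ℚ_[p]) + (b : ℚ_[p]) * ρ := by
  classical
  set χ : MulChar (ZMod p) ℚ_[p] := om ^ (4 * N) with hχd
  set φ : MulChar (ZMod p) ℚ_[p] := om ^ (3 * N) with hφd
  have hχ : χ ≠ 1 := om_pow_ne_one (not_dvd_aux hN h0 (by norm_num))
  have hφ : φ ≠ 1 := om_pow_ne_one (not_dvd_aux hN h0 (by norm_num))
  have hχφ : χ * φ ≠ 1 := by
    rw [hχd, hφd, ← pow_add, ← add_mul]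
    exact om_pow_ne_one (not_dvd_aux hN h0 (by norm_num))
  have hχa : ∀ a, χ a = teich a ^ (4 * N) := fun a => MulChar.pow_apply' _ (by omega) a
  have hφa : ∀ a, φ a = teich a ^ (3 * N) := fun a => MulChar.pow_apply' _ (by omega) a
  have hc3 : ∀ a, a ≠ 0 → χ a ^ 3 = 1 := by
    intro a ha
    rw [hχa, ← pow_mul, show 4 * N * 3 = (p - 1) * 2 by omega, pow_mul, teich_pow_pred ha, one_pow]
  have hf2 : ∀ a, a ≠ 0 → φ a ^ 2 = 1 := by
    intro a ha
    rw [hφa, ← pow_mul, show 3 * N * 2 = p - 1 by omega, teich_pow_pred ha]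
  have hchar : ringChar ℚ_[p] ≠ ringChar (ZMod p) := by
    rw [ringChar.eq_zero, ZMod.ringChar_zmod_n]; exact hp.out.ne_zero.symm
  have hJ := jacobiSum_mul_jacobiSum_inv hchar hχ hφ hχφ
  rw [ZMod.card] at hJ
  obtain ⟨g, hg⟩ := MulChar.ne_one_iff.mp hχ
  have hg3 := hc3 g g.ne_zero
  have hz : χ g ^ 2 + χ g + 1 = 0 := by
    apply mul_left_cancel₀ (sub_ne_zero.mpr hg)
    linear_combination hg3
  set ρ : ℚ_[p] := 2 * χ g + 1 with hρd
  have hρ : ρ ^ 2 = -3 := by rw [hρd]; linear_combination 4 * hz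
  have hρ0 : ρ ≠ 0 := by rintro h; rw [h] at hρ; norm_num at hρ
  have hρv : Dv 0 ρ := by
    rw [hρd, hχa]
    exact ((dv_ofNat 2).mul0 ((teich_dv _).pow0 _)).add dv_one
  have hst : ∀ a : ZMod p, ∃ s t : ℤ, 2 * χ a = (s : ℚ_[p]) + (t : ℚ_[p]) * ρ ∧
      2 * χ⁻¹ a = (s : ℚ_[p]) - (t : ℚ_[p]) * ρ ∧
      (3 : ℤ) ∣ s - (if a = 0 then 0 else 2) ∧ (a = 1 → t = 0) := by
    intro a
    by_cases ha0 : a = 0
    · exact ⟨0, 0, by simp [ha0, MulChar.map_zero], by simp [ha0, MulChar.map_zero], by simp [ha0],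
        fun _ => rfl⟩
    by_cases ha1 : χ a = 1
    · exact ⟨2, 0, by simp [ha1], by simp [MulChar.inv_apply_eq_inv', ha1], by simp [ha0],
        fun _ => rfl⟩
    have h1 : a ≠ 1 := by rintro rfl; exact ha1 (map_one χ)
    have h2 : χ a ^ 2 + χ a + 1 = 0 := by
      apply mul_left_cancel₀ (sub_ne_zero.mpr ha1)
      linear_combination hc3 a ha0
    have h3 : χ⁻¹ a = -1 - χ a := by
      rw [MulChar.inv_apply_eq_inv']
      apply inv_eq_of_mul_eq_one_right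
      linear_combination -h2
    have h4 : (2 * χ a + 1 - ρ) * (2 * χ a + 1 + ρ) = 0 := by linear_combination 4 * h2 - hρ
    rcases mul_eq_zero.mp h4 with h | h
    · refine ⟨-1, 1, ?_, ?_, by simp [ha0], fun h => absurd h h1⟩
      · push_cast; linear_combination h
      · rw [h3]; push_cast; linear_combination -h
    · refine ⟨-1, -1, ?_, ?_, by simp [ha0], fun h => absurd h h1⟩
      · push_cast; linear_combination h
      · rw [h3]; push_cast; linear_combination -h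
  choose s t hs1 hs2 hs3 hs4 using hst
  have he : ∀ x : ZMod p, ∃ e : ℤ, φ x = (e : ℚ_[p]) ∧ φ⁻¹ x = (e : ℚ_[p]) ∧
      (x ≠ 0 → (2 : ℤ) ∣ e - 1) := by
    intro x
    by_cases hx : x = 0
    · exact ⟨0, by simp [hx, MulChar.map_zero], by simp [hx, MulChar.map_zero], fun h => absurd hx h⟩
    rcases sq_eq_one_iff.mp (hf2 x hx) with h | h
    · exact ⟨1, by simp [h], by simp [MulChar.inv_apply_eq_inv', h], fun _ => by norm_num⟩
    · exact ⟨-1, by simp [h], by simp [MulChar.inv_apply_eq_inv', h], fun _ => by norm_num⟩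
  choose e he1 he2 he3 using he
  set A : ℤ := ∑ a : ZMod p, s a * e (1 - a) with hA
  set B : ℤ := ∑ a : ZMod p, t a * e (1 - a) with hB
  have j1 : 2 * jacobiSum χ φ = (A : ℚ_[p]) + (B : ℚ_[p]) * ρ := by
    rw [jacobiSum, hA, hB, mul_sum]; push_cast
    rw [sum_mul, ← sum_add_distrib]
    exact sum_congr rfl fun a _ => by rw [← mul_assoc, hs1, he1]; ring
  have j2 : 2 * jacobiSum χ⁻¹ φ⁻¹ = (A : ℚ_[p]) - (B : ℚ_[p]) * ρ := by
    rw [jacobiSum, hA, hB, mul_sum]; push_cast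
    rw [sum_mul, ← sum_sub_distrib]
    exact sum_congr rfl fun a _ => by rw [← mul_assoc, hs2, he2]; ring
  have hAB : A ^ 2 + 3 * B ^ 2 = 4 * p := by
    have : (A : ℚ_[p]) ^ 2 + 3 * (B : ℚ_[p]) ^ 2 = 4 * (p : ℚ_[p]) := by
      rw [← hJ]
      linear_combination (-(2 * jacobiSum χ⁻¹ φ⁻¹)) * j1 - ((A : ℚ_[p]) + (B : ℚ_[p]) * ρ) * j2
        + (B : ℚ_[p]) ^ 2 * hρ
    exact_mod_cast this
  have hse : ∑ a : ZMod p, e (1 - a) = 0 := by
    have h1 := MulChar.sum_eq_zero_of_ne_one hφ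
    rw [← (Equiv.subLeft (1 : ZMod p)).sum_comp] at h1
    simp only [Equiv.subLeft_apply, he1] at h1
    exact_mod_cast h1
  have hst0 : ∑ a : ZMod p, t a = 0 := by
    have h1 := MulChar.sum_eq_zero_of_ne_one hχ
    have h2 := MulChar.sum_eq_zero_of_ne_one (inv_ne_one.mpr hχ)
    have h3 : ∑ a : ZMod p, (2 * χ a - 2 * χ⁻¹ a) = 0 := by
      rw [sum_sub_distrib, ← mul_sum, ← mul_sum, h1, h2]; ring
    rw [sum_congr rfl (g := fun a => (2 * ρ) * (t a : ℚ_[p]))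
      fun a _ => by rw [hs1, hs2]; ring, ← mul_sum] at h3
    have h4 := (mul_eq_zero.mp h3).resolve_left (mul_ne_zero two_ne_zero hρ0)
    exact_mod_cast h4
  have he0 : e 1 = 1 := by
    have := he1 1
    rw [map_one] at this
    exact_mod_cast this.symm
  have hA3 : (3 : ℤ) ∣ A + 2 := by
    have h1 : (3 : ℤ) ∣ ∑ a : ZMod p, (s a - if a = 0 then 0 else 2) * e (1 - a) :=
      dvd_sum fun a _ => (hs3 a).mul_right _
    have h2 : ∑ a : ZMod p, (if a = 0 then (0 : ℤ) else 2) * e (1 - a) = -2 := by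
      rw [sum_congr rfl (g := fun a => 2 * e (1 - a) - if a = 0 then 2 * e (1 - a) else 0)
        fun a _ => by split_ifs <;> ring, sum_sub_distrib, ← mul_sum, hse]
      simp [he0]
    simp only [sub_mul, sum_sub_distrib] at h1
    rw [h2, ← hA] at h1
    simpa using h1
  have hB2 : (2 : ℤ) ∣ B := by
    have h1 : (2 : ℤ) ∣ ∑ a : ZMod p, t a * (e (1 - a) - 1) := by
      refine dvd_sum fun a _ => ?_
      by_cases ha : a = 1
      · rw [hs4 a ha]; simp
      · exact (he3 _ (sub_ne_zero.mpr (Ne.symm ha))).mul_left _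
    simp only [mul_sub, sum_sub_distrib, mul_one] at h1
    rwa [hst0, sub_zero] at h1
  obtain ⟨b, hb⟩ := hB2
  have hA2 : (2 : ℤ) ∣ A := by
    apply Int.prime_two.dvd_of_dvd_pow (n := 2)
    exact ⟨2 * p - 6 * b ^ 2, by rw [hb] at hAB; linear_combination hAB⟩
  obtain ⟨a, ha⟩ := hA2
  refine ⟨a, b, ρ, hρv, hρ, ?_, by omega, ?_⟩
  · rw [ha, hb] at hAB
    have : 4 * (a ^ 2 + 3 * b ^ 2) = 4 * (p : ℤ) := by linear_combination hAB
    omega
  · have : JJ p (4 * N) (3 * N) = jacobiSum χ φ := by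
      simp only [JJ, jacobiSum, hχa, hφa]
    rw [this]
    rw [ha, hb] at j1
    push_cast at j1
    linear_combination j1 / 2

end Pool.Agent.Lib.MP_d57286_nt
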