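import Mathlib
import Pool.Agent.Lib.MP_d57286_nt.Struct
import Pool.Agent.Lib.MP_d57286_nt.Sign

/-! Assembly of the two supercongruences in the `p`-adic field. -/

set_option linter.unusedSectionVars false

namespace Pool.Agent.Lib.MP_d57286_nt

open Finset

variable {p : ℕ} [hp : Fact p.Prime]

lemma un_y {m : ℕ} (hm : p = 12 * m + 7) {x y : ℤ} (h2 : x ^ 2 + 3 * y ^ 2 = p) (hy : y % 4 = 1) :
    Un (y : ℚ_[p]) := by
  apply un_int
  intro hd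
  have hp0 : (0 : ℤ) < p := by exact_mod_cast hp.out.pos
  have := Int.le_of_dvd (abs_pos.mpr (by omega)) ((dvd_abs _ _).mpr hd)
  nlinarith [sq_nonneg x, sq_abs y]

lemma r_sq {m : ℕ} (hm : p = 12 * m + 7) :
    Dv 2 (((3 : ℚ_[p]) ^ (3 * m + 2) * (1 - (p : ℚ_[p]) / 6 *
      hs ((3 * (2 * m + 1) : ℕ) : ℚ_[p]) (2 * (2 * m + 1)))) ^ 2 + 3) := by
  have e := three_pow_cong (p := p) (N := 2 * m + 1) (by omega) (by omega)
  have u2 := un_two (p := p) (by omega)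
  have u3 := un_three (p := p) (by omega)
  have hh : Dv 0 (hs ((3 * (2 * m + 1) : ℕ) : ℚ_[p]) (2 * (2 * m + 1))) :=
    hs_dv0 (by omega) (by omega)
  have e2 := dv_pp_mul (((u3.pow (6 * m + 4)).dv.mul0 (hh.pow0 2)).div ((u2.mul u3).pow 2))
  refine ((u3.dv.mul_l e).add e2).of_eq ?_
  rw [(odd_two_mul_add_one m).neg_one_pow]
  ring

lemma r_sq1 {m : ℕ} (hm : p = 12 * m + 7) : Dv 1 (((3 : ℚ_[p]) ^ (3 * m + 2)) ^ 2 + 3) := by
  have u2 := un_two (p := p) (by omega)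
  have u3 := un_three (p := p) (by omega)
  have hh : Dv 0 (hs ((3 * (2 * m + 1) : ℕ) : ℚ_[p]) (2 * (2 * m + 1))) :=
    hs_dv0 (by omega) (by omega)
  have e := (r_sq hm).mono (l := 1) (by norm_num)
  generalize hs ((3 * (2 * m + 1) : ℕ) : ℚ_[p]) (2 * (2 * m + 1)) = h at *
  have e2 := dv_p_mul (((u3.pow (3 * m + 2)).pow 2).dv.mul0
    ((hh.div u3).sub (((dv_nat p).mul0 (hh.pow0 2)).div ((u2.mul u3).pow 2))))
  refine (e.add e2).of_eq ?_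
  ring

theorem W_main {m M : ℕ} (hm : p = 12 * m + 7) (hM : 2 * m + 1 < M) {x y : ℤ}
    (h2 : x ^ 2 + 3 * y ^ 2 = p) (hy : y % 4 = 1) :
    Dv 2 (W M (3 * (2 * m + 1)) / (3 : ℚ_[p]) ^ (3 * m + 2)
      - (2 * (y : ℚ_[p]) - (p : ℚ_[p]) / (6 * (y : ℚ_[p])))) := by
  have hN : p = 6 * (2 * m + 1) + 1 := by omega
  have u2 := un_two (p := p) (by omega)
  have u3 := un_three (p := p) (by omega)
  have u6 : Un (6 : ℚ_[p]) := by have := u2.mul u3; norm_num at this; exact this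
  have uy := un_y hm h2 hy
  have eW := W_cong (M := M) hN (by omega) hM
  have eJ := JJ_cong hN (odd_two_mul_add_one m)
  have eR := r_sq hm
  have eR1 := r_sq1 hm
  have uc : Un (bc ((3 * (2 * m + 1) : ℕ) : ℚ_[p]) (2 * m + 1)) :=
    (un_beta (n := 3 * (2 * m + 1)) (by omega) (by omega) (j := 2 * m + 1) (by omega)).of_sub
      ((bc_half_cong1 (n := 3 * (2 * m + 1)) (by omega) (by omega) (j := 2 * m + 1)
        (by omega)).neg.of_eq (by ring))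
  have hh : Dv 0 (hs ((3 * (2 * m + 1) : ℕ) : ℚ_[p]) (2 * m + 1)) := hs_dv0 (by omega) (by omega)
  have hh' : Dv 0 (hs ((3 * (2 * m + 1) : ℕ) : ℚ_[p]) (2 * (2 * m + 1))) :=
    hs_dv0 (by omega) (by omega)
  have ur : Un ((3 : ℚ_[p]) ^ (3 * m + 2)) := u3.pow _
  have hrc : (3 : ℚ_[p]) ^ (3 * m + 2) = ((3 ^ (3 * m + 2) : ℤ) : ℚ_[p]) := by push_cast; rfl
  have key : ∀ (a b : ℤ) (ρ : ℚ_[p]), Dv 0 ρ → ρ ^ 2 = -3 → a ^ 2 + 3 * b ^ 2 = p → a % 3 = 2 →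
      JJ p (4 * (2 * m + 1)) (3 * (2 * m + 1)) = (a : ℚ_[p]) + (b : ℚ_[p]) * ρ →
      Dv 2 ((3 : ℚ_[p]) ^ (3 * m + 2) * (1 - (p : ℚ_[p]) / 6 *
        hs ((3 * (2 * m + 1) : ℕ) : ℚ_[p]) (2 * (2 * m + 1))) - ρ) →
      Dv 2 (W M (3 * (2 * m + 1)) / (3 : ℚ_[p]) ^ (3 * m + 2)
        - (2 * (y : ℚ_[p]) - (p : ℚ_[p]) / (6 * (y : ℚ_[p])))) := by
    intro a b ρ hρv hρ hab ha hJ eρ
    generalize hs ((3 * (2 * m + 1) : ℕ) : ℚ_[p]) (2 * (2 * m + 1)) = h' at *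
    generalize hs ((3 * (2 * m + 1) : ℕ) : ℚ_[p]) (2 * m + 1) = h at *
    generalize bc ((3 * (2 * m + 1) : ℕ) : ℚ_[p]) (2 * m + 1) = c at *
    generalize JJ p (4 * (2 * m + 1)) (3 * (2 * m + 1)) = J at *
    generalize (W M (3 * (2 * m + 1)) : ℚ_[p]) = w at *
    have hab' : (a : ℚ_[p]) ^ 2 + 3 * (b : ℚ_[p]) ^ 2 = (p : ℚ_[p]) := by exact_mod_cast hab
    have uJ : Un J := uc.of_sub (((eJ.mono (by norm_num)).sub
      (dv_p_mul (uc.dv.mul0 ((hh'.add (u2.dv.mul0 hh)).div u6)))).of_eq (by ring))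
    have hJ0 := uJ.ne_zero
    have hbar : (a : ℚ_[p]) - (b : ℚ_[p]) * ρ = (p : ℚ_[p]) / J := by
      rw [eq_div_iff hJ0, hJ]; linear_combination hab' - (b : ℚ_[p]) ^ 2 * hρ
    have eρ1 : Dv 1 ((3 : ℚ_[p]) ^ (3 * m + 2) - ρ) :=
      ((eρ.mono (by norm_num)).add (dv_p_mul ((ur.dv.mul0 hh').div u6))).of_eq (by ring)
    have uρ : Un ρ := ur.of_sub (eρ1.neg.of_eq (by ring))
    have d1 : Dv 1 ((a - b * 3 ^ (3 * m + 2) : ℤ) : ℚ_[p]) := by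
      refine ((dv_p.div uJ).sub ((dv_int b).mul_l eρ1)).of_eq ?_
      rw [← hbar]; push_cast; ring
    have d2 : Dv 1 (((3 ^ (3 * m + 2)) ^ 2 + 3 : ℤ) : ℚ_[p]) := eR1.of_eq (by push_cast; ring)
    rw [dv_int_iff, pow_one] at d1 d2
    have hby := sign_eq hp.out hm hab ha h2 hy d1 d2
    subst hby
    generalize (3 : ℚ_[p]) ^ (3 * m + 2) = r at *
    have h1 : Dv 0 (1 + (p : ℚ_[p]) / 6 * h') := dv_one.add (((dv_nat p).div u6).mul0 hh')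
    have f1 : Dv 2 (w - J * (1 + (p : ℚ_[p]) / 6 * h')) :=
      ((eW.sub (eJ.mul_r h1)).add (dv_pp_mul
        ((uc.dv.mul0 ((hh'.add (u2.dv.mul0 hh)).mul0 hh')).div (u6.pow 2)))).of_eq (by ring)
    have f2 : Dv 2 (w * ρ - J * r) :=
      (((f1.mul_r hρv).sub ((uJ.dv.mul0 h1).mul_l eρ)).sub (dv_pp_mul
        (((uJ.dv.mul0 ur.dv).mul0 (hh'.pow0 2)).div (u6.pow 2)))).of_eq (by ring)
    have f3 := f2.div (ur.mul uρ)
    have f4 := dv_pp_mul (dv_one.div ((u6.mul uy).mul (uJ.pow 2)))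
    refine (f3.add f4).of_eq ?_
    have := ur.ne_zero
    have := uρ.ne_zero
    have := uy.ne_zero
    have hJ2 : J * J = 2 * (b : ℚ_[p]) * ρ * J + (p : ℚ_[p]) := by
      rw [eq_div_iff hJ0] at hbar
      linear_combination hbar + J * hJ
    field_simp
    linear_combination (r * (6 * (b : ℚ_[p]) * J + (p : ℚ_[p]) * ρ)) * hJ2
      + (2 * r * (b : ℚ_[p]) * (p : ℚ_[p]) * J) * hρ
  obtain ⟨a, b, ρ, hρv, hρ, hab, ha, hJ⟩ := jac_struct hN (by omega)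
  have hv : Dv 0 ((3 : ℚ_[p]) ^ (3 * m + 2) * (1 - (p : ℚ_[p]) / 6 *
      hs ((3 * (2 * m + 1) : ℕ) : ℚ_[p]) (2 * (2 * m + 1)))) :=
    ur.dv.mul0 (dv_one.sub (((dv_nat p).div u6).mul0 hh'))
  have uρ : Un ρ := by
    have h1 : ‖ρ‖ ^ 2 = 1 := by
      rw [← norm_pow, hρ, norm_neg]; exact u3
    have := norm_nonneg ρ
    unfold Un; nlinarith
  rcases dv_of_mul (hv.add hρv) (hv.sub hρv) (eR.of_eq (by linear_combination -hρ))
    (by rw [add_sub_sub_cancel, ← two_mul]; exact u2.mul uρ) with h | h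
  · exact key a (-b) (-ρ) hρv.neg (by rw [neg_sq, hρ]) (by rw [neg_sq, hab]) ha
      (by rw [hJ]; push_cast; ring) (h.of_eq (by ring))
  · exact key a b ρ hρv hρ hab ha hJ h

lemma sum_cong {n : ℕ} (hn : p = 2 * n + 1) (h2 : 2 < p) (z : ℕ → ℚ_[p]) (hz : ∀ k, Dv 0 (z k)) :
    Dv 2 (∑ k ∈ range p, z k / 64 ^ k * ((2 * k).choose k : ℚ_[p]) ^ 2 - LL p n z) := by
  rw [LL, ← sum_sub_distrib]
  refine Dv.sum fun k hk => ?_
  have u4 : Un ((4 : ℚ_[p]) ^ k) := by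
    have := ((un_two h2).pow 2).pow k; norm_num at this; exact this
  refine (((lc_sq hn h2 (mem_range.mp hk)).mul_r (hz k)).div u4).neg.of_eq ?_
  rw [bc_half, show (64 : ℚ_[p]) = 4 * 4 * 4 by norm_num, mul_pow, mul_pow]
  have := u4.ne_zero
  field_simp; ring

theorem Q1_padic {m : ℕ} (hm : p = 12 * m + 7) {x y : ℤ}
    (h2 : x ^ 2 + 3 * y ^ 2 = p) (hy : y % 4 = 1) :
    Dv 2 (∑ k ∈ range p, (lucasU k : ℚ_[p]) / 64 ^ k * ((2 * k).choose k : ℚ_[p]) ^ 2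
      - (2 * (y : ℚ_[p]) - (p : ℚ_[p]) / (6 * (y : ℚ_[p])))) := by
  have e1 := sum_cong (p := p) (n := 2 * (3 * m + 1) + 1) (by omega) (by omega) uu
    fun k => dv_int _
  have e2 := (LL_eq_W (K := ℚ_[p]) (12 * m + 6) (3 * m + 1) (by omega)).2.2.2
  have e3 := W_main (M := p) hm (by omega) h2 hy
  rw [show 12 * m + 6 + 1 = p by omega] at e2
  rw [e2, show 2 * (3 * m + 1) + 1 = 3 * (2 * m + 1) by ring] at e1
  exact (e1.add e3).of_eq (by simp only [uu]; ring)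

theorem Q2_padic {m : ℕ} (hm : p = 12 * m + 7) {x y : ℤ}
    (h2 : x ^ 2 + 3 * y ^ 2 = p) (hy : y % 4 = 1) :
    Dv 2 (∑ k ∈ range p, (k : ℚ_[p]) * (lucasU k : ℚ_[p]) / 64 ^ k * ((2 * k).choose k : ℚ_[p]) ^ 2
      - (y : ℚ_[p])) := by
  have hN : p = 6 * (2 * m + 1) + 1 := by omega
  have hP : (p : ℚ_[p]) = 12 * (m : ℚ_[p]) + 7 := by exact_mod_cast hm
  have u2 := un_two (p := p) (by omega)
  have u3 := un_three (p := p) (by omega)
  have u6 : Un (6 : ℚ_[p]) := by have := u2.mul u3; norm_num at this; exact this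
  have uy := un_y hm h2 hy
  have e1 := sum_cong (p := p) (n := 2 * (3 * m + 1) + 1) (by omega) (by omega)
    (fun k => (k : ℚ_[p]) * uu k) fun k => (dv_nat k).mul0 (dv_int _)
  have e0 : LL p (2 * (3 * m + 1) + 1) (fun k => (k : ℚ_[p]) * uu k)
      = DD p (2 * (3 * m + 1) + 1) uu := sum_congr rfl fun k _ => by ring
  have e2 := DD_eq_W (K := ℚ_[p]) (12 * m + 6) (3 * m + 1) (by omega)
  have e3 := W_main (M := p) hm (by omega) h2 hy
  have e4 := W_pred (K := ℚ_[p]) p (2 * (3 * m + 1)) (by omega)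
  have e5 := kap_pred1 (M := p) hN (by omega) (by omega)
  have e6 := kap_pred2 (M := p) hN (by omega) (by omega)
  have e7 := W_cong (M := p) hN (by omega) (by omega)
  have e8 := bc_half_cong1 (p := p) (n := 3 * (2 * m + 1)) (by omega) (by omega)
    (j := 2 * m + 1) (by omega)
  have ub := un_beta (p := p) (n := 3 * (2 * m + 1)) (by omega) (by omega) (j := 2 * m + 1)
    (by omega)
  have hc : Dv 0 (bc ((3 * (2 * m + 1) : ℕ) : ℚ_[p]) (2 * m + 1)) := bc_dv0 (dv_nat _) (by omega)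
  have hh : Dv 0 (hs ((3 * (2 * m + 1) : ℕ) : ℚ_[p]) (2 * m + 1)) := hs_dv0 (by omega) (by omega)
  have eR1 := r_sq1 hm
  have ur : Un ((3 : ℚ_[p]) ^ (3 * m + 2)) := u3.pow _
  rw [show 12 * m + 6 + 1 = p by omega] at e2
  rw [show ((2 * (3 * m + 1) : ℕ) : ℚ_[p]) + 3 / 2 = (p : ℚ_[p]) / 2 by rw [hP]; push_cast; ring,
    show ((2 * (3 * m + 1) : ℕ) : ℤ) = 3 * ((2 * m + 1 : ℕ) : ℤ) - 1 by push_cast; ring,
    show 3 * ((2 * m + 1 : ℕ) : ℤ) - 1 - 1 = 3 * ((2 * m + 1 : ℕ) : ℤ) - 2 by ring] at e4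
  rw [e0, e2] at e1
  rw [show 2 * (3 * m + 1) + 1 = 3 * (2 * m + 1) by ring] at e1 e4
  have h3 : (3 : ℚ_[p]) ^ (3 * m + 1) = 3 ^ (3 * m + 2) / 3 := by rw [pow_succ _ (3 * m + 1)]; simp
  rw [h3] at e1
  generalize (3 : ℚ_[p]) ^ (3 * m + 2) = r at *
  generalize hs ((3 * (2 * m + 1) : ℕ) : ℚ_[p]) (2 * m + 1) = h at *
  generalize bc ((3 * (2 * m + 1) : ℕ) : ℚ_[p]) (2 * m + 1) = c at *
  generalize bc (-1 / 2 : ℚ_[p]) (2 * m + 1) = β at *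
  generalize (W p (3 * (2 * m + 1)) : ℚ_[p]) = w at *
  generalize (W p (2 * (3 * m + 1)) : ℚ_[p]) = w' at *
  generalize kap p ((p : ℚ_[p]) / 2) (3 * ((2 * m + 1 : ℕ) : ℤ) - 1) = k1 at *
  generalize kap p ((p : ℚ_[p]) / 2) (3 * ((2 * m + 1 : ℕ) : ℤ) - 2) = k2 at *
  have hr0 := ur.ne_zero
  have hy0 := uy.ne_zero
  have hb0 := ub.ne_zero
  have g1 : Dv 1 (β - 2 * (y : ℚ_[p]) * r) := by
    refine ((((e8.sub (e7.mono (by norm_num))).add (dv_p_mul ((hc.mul0 hh).div u3))).add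
      (ur.dv.mul_l (e3.mono (by norm_num)))).sub
      (dv_p_mul (ur.dv.div (u6.mul uy)))).of_eq ?_
    field_simp; ring
  have g2 : Dv 1 (6 * (y : ℚ_[p]) + r * β) :=
    ((ur.dv.mul_l g1).add ((u2.mul uy).dv.mul_l eR1)).of_eq (by ring)
  have g3 := dv_p_mul' ((g1.div (u2.mul ur)).sub (g2.div ((((u2.mul u6).mul uy).mul ur).mul ub)))
  have g4 := (dv_p_mul' e5).div ur
  have g5 := (u2.dv.mul_l e6).div ur
  have g6 := (dv_nat (p := p) (6 * m + 3)).mul_l e3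
  have g7 := dv_pp_mul (dv_one.div ((u2.mul u6).mul uy))
  refine (((((e1.add g3).sub g4).sub g5).sub g6).add g7).of_eq ?_
  have hk : k2 = 3 * (6 * (m : ℚ_[p]) + 3) * w' + (6 * (m : ℚ_[p]) + 3) * w
      - (p : ℚ_[p]) / 2 * k1 := by
    push_cast at e4; linear_combination -e4
  simp only [uu]
  rw [hk, hP]
  push_cast
  field_simp
  ring

end Pool.Agent.Lib.MP_d57286_nt
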